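import Pool.Agent.Lib.MP_ddf912_lc.Dj.Tree

namespace Pool.Agent.Lib.MP_ddf912_lc.Dj

open Finset

def SmallB (V : List ℕ) (k : ℕ) (A : Box) : Prop :=
  A.length ≤ k * V.length ∧ ∀ a ∈ A, a.1 < k ∧ a.2 ∈ V

theorem smallB_toList {V : List ℕ} {k : ℕ} {B : Finset (ℕ × ℕ)}
    (h : ∀ a ∈ B, a.1 < k ∧ a.2 ∈ V) : SmallB V k B.toList := by
  refine ⟨?_, fun a ha => h a (mem_toList.1 ha)⟩
  rw [length_toList]
  have h1 : B ⊆ range k ×ˢ V.toFinset := fun a ha =>
    mem_product.2 ⟨mem_range.2 (h a ha).1, List.mem_toFinset.2 (h a ha).2⟩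
  refine (card_le_card h1).trans ?_
  rw [card_product, card_range]
  exact Nat.mul_le_mul_left _ (List.toFinset_card_le _)

theorem complete {V : List ℕ} {E : List (ℕ × ℕ)} {k : ℕ} {test : Box → List Box → Bool}
    {U : Type} [Fintype U] [DecidableEq U] (Λ : Box → Finset U) (q b H : ℕ)
    (hq : ∀ A, SmallB V k A → (Λ A).card ≤ q) (hU : Fintype.card U ≤ 2 ^ b)
    (htest : ∀ A As, SmallB V k A → (∀ A' ∈ As, SmallB V k A') →
      (∀ u ∈ Λ A, ∃ A' ∈ As, u ∈ Λ A') → test A As = true)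
    (hno : ¬ ∃ y, Tup V E k y) (hk : 1 ≤ k) (hH : V.toFinset.card < 2 ^ H) :
    ∃ P : List Rcd, hand P [] V = true ∧ (∀ r ∈ P, ok V E k (List.range k) test P r = true ∧
      SmallN V k r.1 ∧ SmallB V k r.2.1 ∧ r.2.2.length ≤ q ∧ ∀ A ∈ r.2.2, SmallB V k A) ∧
      P.length ≤ V.toFinset.card * ((q + 1) * (6 * b + 4) ^ k) * (H + 1) ^ k := by
  classical
  have hpos : 1 ≤ (q + 1) * (6 * b + 4) ^ k := Nat.succ_le_of_lt (by positivity)
  obtain ⟨cert, h1, h2⟩ := tree (V := V) (E := E) (k := k) (Lay := List.range k) (test := test)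
    (fun A As => SmallB V k A ∧ As.length ≤ q ∧ ∀ A' ∈ As, SmallB V k A')
    ⟨⟨by simp, by simp⟩, by simp, by simp⟩ ((q + 1) * (6 * b + 4) ^ k) H hno hH (by
      intro cs hcs hl
      rcases cs with _ | ⟨Z0, cs0⟩
      · exact (card_filter_le _ _).trans (by simpa [St] using hpos)
      set cs := Z0 :: cs0 with hcs'
      have hne : ∀ σ ∈ St cs, σ ≠ [] := by
        rintro σ hσ rfl
        have := (St_spec cs _ hσ).1
        simp [hcs'] at this
      let F : Finset (ℕ × ℕ) := ((range k).filter fun l => cs.length ≤ l) ×ˢ V.toFinset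
      have hF : ∀ a, a ∈ F ↔ a.1 < k ∧ cs.length ≤ a.1 ∧ a.2 ∈ V := by
        intro a; simp [F, and_assoc]
      have hsm : ∀ B ⊆ SS cs, SmallB V k (B ∪ F).toList := by
        intro B hB
        refine smallB_toList fun a ha => ?_
        rcases mem_union.1 ha with ha | ha
        · obtain ⟨a1, Z, a2, a3⟩ := SS_spec cs a (hB ha)
          exact ⟨by omega, (hcs Z a2).subset a3⟩
        · exact ⟨((hF a).1 ha).1, ((hF a).1 ha).2.2⟩
      rw [← card_image_of_injOn (f := pts) fun σ hσ σ' hσ' e =>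
        (pts_spec cs σ (mem_filter.1 hσ).1).2.2.2 σ' (mem_filter.1 hσ').1 e]
      refine (alive_card (SS cs) (fun B => Λ (B ∪ F).toList) q b cs.length
        (fun B hB => hq _ (hsm B hB)) hU _ ?_).trans
        (Nat.mul_le_mul_left _ (Nat.pow_le_pow_right (by omega) hl))
      intro X hX
      obtain ⟨σ, hσ, rfl⟩ := mem_image.1 hX
      obtain ⟨hσ, hal⟩ := mem_filter.1 hσ
      obtain ⟨p1, p2, p3, -⟩ := pts_spec cs σ hσ
      obtain ⟨s1, s2, -⟩ := St_spec cs σ hσ
      refine ⟨p1, p2, fun B hB1 hB2 => ?_⟩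
      by_contra hn
      have a1 : ∀ u, ∃ B' : Finset (ℕ × ℕ), u ∈ Λ (B ∪ F).toList →
          B' ⊆ SS cs ∧ u ∈ Λ (B' ∪ F).toList ∧ ¬ pts σ ⊆ B' := by
        intro u
        by_cases hu : u ∈ Λ (B ∪ F).toList
        · by_contra h
          refine hn ⟨u, hu, fun B' b1 b2 => ?_⟩
          by_contra b3
          exact h ⟨B', fun _ => ⟨b1, b2, b3⟩⟩
        · exact ⟨∅, fun h => absurd h hu⟩
      choose g hg using a1
      have a2 : ∀ A' ∈ (Λ (B ∪ F).toList).toList.map fun u => (g u ∪ F).toList,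
          ∃ u ∈ Λ (B ∪ F).toList, A' = (g u ∪ F).toList := by
        intro A' hA'
        obtain ⟨u, hu, rfl⟩ := List.mem_map.1 hA'
        exact ⟨u, mem_toList.1 hu, rfl⟩
      have a3 : ∀ A' ∈ (Λ (B ∪ F).toList).toList.map fun u => (g u ∪ F).toList,
          SmallB V k A' := by
        intro A' hA'
        obtain ⟨u, hu, rfl⟩ := a2 A' hA'
        exact hsm _ (hg u hu).1
      refine hal.resolve_left (hne σ hσ) ⟨(B ∪ F).toList,
        (Λ (B ∪ F).toList).toList.map fun u => (g u ∪ F).toList, ?_, hsm B hB2, ?_, a3⟩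
      · simp only [dead, inZ, Bool.and_eq_true, List.all_eq_true, decide_eq_true_eq,
          Bool.or_eq_true, Bool.not_eq_true', decide_eq_false_iff_not, List.any_eq_true]
        refine ⟨⟨⟨fun e he => ?_, fun l hl' => ?_⟩, fun A' hA' => ⟨fun a ha => ⟨(a3 A' hA').2 a ha,
          fun e he => ?_⟩, ?_⟩⟩, htest _ _ (hsm B hB2) a3 fun u hu =>
            ⟨_, List.mem_map_of_mem (mem_toList.2 hu), (hg u hu).2.1⟩⟩
        · exact mem_toList.2 (mem_union_left _ (hB1 (mem_pts.2 ⟨e, he, rfl⟩)))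
        · by_cases h : l < σ.length
          · exact Or.inl h
          · exact Or.inr fun v hv => mem_toList.2 (mem_union_right _
              ((hF _).2 ⟨List.mem_range.1 hl', by simp only; omega, hv⟩))
        · obtain ⟨u, hu, rfl⟩ := a2 A' hA'
          by_cases h : e.1 = a.1
          · refine Or.inr ?_
            rcases mem_union.1 (mem_toList.1 ha) with ha | ha
            · exact p3 a ((hg u hu).1 ha) e he h
            · have := ((hF a).1 ha).2.1
              have := (s2 e he).1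
              omega
          · exact Or.inl h
        · obtain ⟨u, hu, rfl⟩ := a2 A' hA'
          obtain ⟨a, ha, ha'⟩ := not_subset.1 (hg u hu).2.2
          obtain ⟨e, he, rfl⟩ := mem_pts.1 ha
          refine ⟨e, he, fun h => ?_⟩
          rcases mem_union.1 (mem_toList.1 h) with h | h
          · exact ha' h
          · have := ((hF _).1 h).2.1
            have := (s2 e he).1
            simp only at *
            omega
      · rw [List.length_map, length_toList]
        exact hq _ (hsm B hB2)) k [] (by simp) (by simp)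
  have h0 : ([] : Node) ∈ St [] := by simp [St]
  refine ⟨cert [], (h1 [] h0).1 (by omega), (h1 [] h0).2, ?_⟩
  simpa [St] using h2

end Pool.Agent.Lib.MP_ddf912_lc.Dj
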