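import Pool.Agent.Lib.MP_ddf912_lc.System

namespace Pool.Agent.Lib.MP_ddf912_lc.Dj

open Finset

theorem choose_tail {m j b : ℕ} (h : 3 * b ≤ m) : m.choose j * 2 ^ b ≤ 2 ^ (j + m) := by
  by_cases hj : m < j
  · rw [Nat.choose_eq_zero_of_lt hj]; simp
  have h1 : 1 ^ j * 2 ^ (m - j) * m.choose j ≤ (1 + 2) ^ m := by
    rw [add_pow]
    exact Finset.single_le_sum (f := fun i => 1 ^ i * 2 ^ (m - i) * (m.choose i : ℕ))
      (fun i _ => Nat.zero_le _) (Finset.mem_range.2 (by omega))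
  have h2 : 3 ^ m * 2 ^ b ≤ 4 ^ m := by
    obtain ⟨r, rfl⟩ := Nat.exists_eq_add_of_le h
    calc 3 ^ (3 * b + r) * 2 ^ b = (27 * 2) ^ b * 3 ^ r := by
          rw [pow_add, pow_mul, mul_pow]; ring
      _ ≤ 64 ^ b * 4 ^ r := Nat.mul_le_mul (Nat.pow_le_pow_left (by norm_num) _)
          (Nat.pow_le_pow_left (by norm_num) _)
      _ = 4 ^ (3 * b + r) := by rw [pow_add, pow_mul]; norm_num
  have h3 : 2 ^ (m - j) * (m.choose j * 2 ^ b) ≤ 2 ^ (m - j) * 2 ^ (j + m) := by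
    calc 2 ^ (m - j) * (m.choose j * 2 ^ b) = (1 ^ j * 2 ^ (m - j) * m.choose j) * 2 ^ b := by ring
      _ ≤ 3 ^ m * 2 ^ b := Nat.mul_le_mul_right _ h1
      _ ≤ 4 ^ m := h2
      _ = 2 ^ (m - j) * 2 ^ (j + m) := by
          rw [← pow_add, show m - j + (j + m) = 2 * m by omega, pow_mul]; norm_num
  exact Nat.le_of_mul_le_mul_left h3 (by positivity)

/-- Few sets are bound to a label in all their supersets. -/
theorem alive_card {α U : Type} [DecidableEq α] [Fintype U] [DecidableEq U] (S : Finset α)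
    (Λ : Finset α → Finset U) (q b j : ℕ) (hq : ∀ B ⊆ S, (Λ B).card ≤ q)
    (hU : Fintype.card U ≤ 2 ^ b) (Al : Finset (Finset α))
    (hAl : ∀ X ∈ Al, X ⊆ S ∧ X.card = j ∧ ∀ B, X ⊆ B → B ⊆ S →
      ∃ u ∈ Λ B, ∀ B' ⊆ S, u ∈ Λ B' → X ⊆ B') :
    Al.card ≤ (q + 1) * (6 * b + 4) ^ j := by
  classical
  rcases Al.eq_empty_or_nonempty with rfl | ⟨X0, hX0⟩
  · simp
  have hjs : j ≤ S.card := (hAl X0 hX0).2.1 ▸ card_le_card (hAl X0 hX0).1
  set s := S.card with hs
  let F : U → Finset (Finset α) := fun u => S.powerset.filter fun B => u ∈ Λ B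
  let J : U → Finset α := fun u => S.filter fun a => ∀ B ∈ F u, a ∈ B
  have h1 : ∀ X ∈ Al, 2 ^ (s - j) ≤ ∑ u, if X ⊆ J u then (F u).card else 0 := by
    intro X hX
    obtain ⟨a1, a2, a3⟩ := hAl X hX
    rw [← a2, hs, ← card_Icc_finset a1, ← sum_filter]
    refine le_trans (card_le_card ?_) card_biUnion_le
    intro B hB
    rw [mem_Icc] at hB
    obtain ⟨u, hu, hu'⟩ := a3 B hB.1 hB.2
    refine mem_biUnion.2 ⟨u, mem_filter.2 ⟨mem_univ _, fun a ha => mem_filter.2 ⟨a1 ha, ?_⟩⟩,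
      mem_filter.2 ⟨mem_powerset.2 hB.2, hu⟩⟩
    intro B' hB'
    exact hu' B' (mem_powerset.1 (mem_filter.1 hB').1) (mem_filter.1 hB').2 ha
  have h2 : ∀ u, ∑ X ∈ Al, (if X ⊆ J u then (F u).card else 0) ≤
      (J u).card.choose j * (F u).card := by
    intro u
    rw [← sum_filter, sum_const, smul_eq_mul, ← card_powersetCard]
    refine Nat.mul_le_mul_right _ (card_le_card fun X hX => ?_)
    exact mem_powersetCard.2 ⟨(mem_filter.1 hX).2, (hAl X (mem_filter.1 hX).1).2.1⟩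
  have h3 : ∀ u, (F u).card ≤ 2 ^ (s - (J u).card) := by
    intro u
    rw [hs, ← card_Icc_finset (filter_subset _ _ : J u ⊆ S)]
    refine card_le_card fun B hB => mem_Icc.2 ⟨fun a ha => (mem_filter.1 ha).2 B hB, ?_⟩
    exact mem_powerset.1 (mem_filter.1 hB).1
  have h4 : ∑ u, (F u).card ≤ 2 ^ s * q := by
    have e : ∑ u, (F u).card = ∑ B ∈ S.powerset, (Λ B).card := by
      simp only [F, card_filter]
      rw [sum_comm]
      refine sum_congr rfl fun B _ => ?_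
      rw [← card_filter]; simp
    rw [e, hs, ← card_powerset, ← smul_eq_mul]
    exact sum_le_card_nsmul _ _ _ fun B hB => hq B (mem_powerset.1 hB)
  have h5 : ∀ u, (J u).card.choose j * (F u).card * 2 ^ b ≤
      (3 * b) ^ j * 2 ^ b * (F u).card + 2 ^ (s + j) := by
    intro u
    by_cases hm : (J u).card ≤ 3 * b
    · have := (Nat.choose_le_pow (J u).card j).trans (Nat.pow_le_pow_left hm j)
      calc _ ≤ (3 * b) ^ j * (F u).card * 2 ^ b := by gcongr
        _ ≤ _ := by rw [mul_right_comm]; exact Nat.le_add_right _ _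
    · have a1 := choose_tail (j := j) (show 3 * b ≤ (J u).card by omega)
      have a2 : (J u).card ≤ s := card_le_card (filter_subset _ _)
      calc _ = (J u).card.choose j * 2 ^ b * (F u).card := by ring
        _ ≤ 2 ^ (j + (J u).card) * 2 ^ (s - (J u).card) := Nat.mul_le_mul a1 (h3 u)
        _ = 2 ^ (s + j) := by rw [← pow_add]; congr 1; omega
        _ ≤ _ := Nat.le_add_left _ _
  have h6 : Al.card * 2 ^ (s - j) * 2 ^ b ≤ (3 * b) ^ j * 2 ^ b * (2 ^ s * q) + 2 ^ b * 2 ^ (s + j) := by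
    calc Al.card * 2 ^ (s - j) * 2 ^ b
        ≤ (∑ X ∈ Al, ∑ u, if X ⊆ J u then (F u).card else 0) * 2 ^ b := by
          refine Nat.mul_le_mul_right _ ?_
          rw [← smul_eq_mul]
          exact card_nsmul_le_sum _ _ _ h1
      _ ≤ (∑ u, (J u).card.choose j * (F u).card) * 2 ^ b := by
          rw [sum_comm]
          exact Nat.mul_le_mul_right _ (sum_le_sum fun u _ => h2 u)
      _ ≤ ∑ u, ((3 * b) ^ j * 2 ^ b * (F u).card + 2 ^ (s + j)) := by
          rw [sum_mul]; exact sum_le_sum fun u _ => h5 u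
      _ ≤ _ := by
          rw [sum_add_distrib, ← mul_sum, sum_const, card_univ, smul_eq_mul]
          exact Nat.add_le_add (Nat.mul_le_mul_left _ h4) (Nat.mul_le_mul_right _ hU)
  obtain ⟨t, ht⟩ := Nat.exists_eq_add_of_le hjs
  have h7 : 2 ^ t * 2 ^ b * Al.card ≤ 2 ^ t * 2 ^ b * (q * (6 * b) ^ j + 4 ^ j) := by
    rw [ht, show j + t - j = t by omega] at h6
    calc _ = Al.card * 2 ^ t * 2 ^ b := by ring
      _ ≤ _ := h6
      _ = _ := by
        rw [show 6 * b = 2 * (3 * b) by ring, mul_pow 2, show (4 : ℕ) = 2 * 2 by rfl, mul_pow 2 2]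
        ring
  have h8 := Nat.le_of_mul_le_mul_left h7 (by positivity)
  have h9 : (6 * b) ^ j ≤ (6 * b + 4) ^ j := Nat.pow_le_pow_left (by omega) _
  have h10 : 4 ^ j ≤ (6 * b + 4) ^ j := Nat.pow_le_pow_left (by omega) _
  have h11 := Nat.mul_le_mul_left q h9
  rw [add_mul, one_mul]
  omega

theorem harm_le (K : ℕ) : ∀ t n : ℕ, n < 2 ^ t → ∑ i ∈ range n, K / (i + 1) ≤ K * t := by
  have key : ∀ t : ℕ, ∑ i ∈ range (2 ^ t - 1), K / (i + 1) ≤ K * t := by
    intro t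
    induction t with
    | zero => simp
    | succ t ih =>
      have hp : 1 ≤ 2 ^ t := Nat.one_le_two_pow
      rw [show 2 ^ (t + 1) - 1 = (2 ^ t - 1) + 2 ^ t by rw [pow_succ]; omega, sum_range_add]
      have h1 : ∑ i ∈ range (2 ^ t), K / (2 ^ t - 1 + i + 1) ≤ (range (2 ^ t)).card • (K / 2 ^ t) :=
        sum_le_card_nsmul _ _ _ fun i _ => Nat.div_le_div_left (by omega) (by omega)
      rw [card_range, smul_eq_mul] at h1
      have h2 := Nat.mul_div_le K (2 ^ t)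
      rw [mul_add]; omega
  intro t n hn
  exact (sum_le_sum_of_subset (range_subset_range.2 (by omega))).trans (key t)

theorem toFinset_del (Z : List ℕ) (x : ℕ) : (del Z x).toFinset = Z.toFinset.erase x := by
  ext v; simp [del, and_comm]

/-- A greedy elimination order. -/
theorem greedy (V : List ℕ) (a : ℕ → List ℕ → ℕ) (K : ℕ)
    (ha : ∀ Z : List ℕ, Z.Sublist V → ∑ x ∈ Z.toFinset, a x Z ≤ K) :
    ∀ (n : ℕ) (Z : List ℕ), Z.Sublist V → Z.toFinset.card = n → ∃ ch : List (ℕ × List ℕ),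
      (Z = [] ∨ ∃ x, (x, Z) ∈ ch) ∧
      (∀ c ∈ ch, c.1 ∈ c.2 ∧ c.2.Sublist V ∧ (del c.2 c.1 = [] ∨ ∃ x, (x, del c.2 c.1) ∈ ch)) ∧
      ch.length ≤ n ∧ (ch.map fun c => a c.1 c.2).sum ≤ ∑ i ∈ range n, K / (i + 1) := by
  intro n
  induction n with
  | zero =>
    intro Z _ hZ
    refine ⟨[], Or.inl ?_, by simp, by simp, by simp⟩
    simpa using hZ
  | succ n ih =>
    intro Z hZ hc
    obtain ⟨x, hx, hmin⟩ := exists_min_image Z.toFinset (fun x => a x Z)
      (card_pos.1 (by omega))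
    have h1 : a x Z ≤ K / (n + 1) := by
      rw [Nat.le_div_iff_mul_le (by omega), mul_comm, ← hc, ← smul_eq_mul]
      exact (card_nsmul_le_sum _ _ _ hmin).trans (ha Z hZ)
    obtain ⟨ch, b1, b2, b3, b4⟩ := ih (del Z x) (List.filter_sublist.trans hZ)
      (by rw [toFinset_del, card_erase_of_mem hx]; omega)
    refine ⟨(x, Z) :: ch, Or.inr ⟨x, List.mem_cons_self⟩, ?_, by simp; omega, ?_⟩
    · intro c hc'
      rcases List.mem_cons.1 hc' with rfl | hc'
      · exact ⟨List.mem_toFinset.1 hx, hZ, b1.imp id fun ⟨y, hy⟩ => ⟨y, List.mem_cons_of_mem _ hy⟩⟩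
      · obtain ⟨c1, c2, c3⟩ := b2 c hc'
        exact ⟨c1, c2, c3.imp id fun ⟨y, hy⟩ => ⟨y, List.mem_cons_of_mem _ hy⟩⟩
    · rw [List.map_cons, List.sum_cons, sum_range_succ]
      simp only
      omega

end Pool.Agent.Lib.MP_ddf912_lc.Dj
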