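import Pool.Agent.Lib.MP_ddf912_lc.Defs

namespace Pool.Agent.Lib.MP_ddf912_lc

open Turing N487b59b3 N68a2faeb

/-- Disjunctive reductions running in time `f (κ x) * (|x| + 1) ^ e (κ x)`. -/
def DisjRed (e : ℕ → ℕ) (A B : PProb) : Prop :=
  ∃ (R : List Bool → List (List Bool)) (M : TM2ComputableAux Bool Bool) (f g : ℕ → ℕ),
    Computable f ∧ Computable g ∧ ∀ x,
      Nonempty (TM2OutputsInTime M.tm (x.map M.inputAlphabet.invFun)
        (some ((bitEncode (R x)).map M.outputAlphabet.invFun))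
        (f (A.κ x) * (x.length + 1) ^ e (A.κ x))) ∧
      (x ∈ A.Q ↔ ∃ y ∈ R x, y ∈ B.Q) ∧ ∀ y ∈ R x, B.κ y ≤ g (A.κ x)

/-- The no-instances of `A` have certificates of length `f (κ x) * (|x| + 1) ^ e (κ x)`. -/
def Refutable (e : ℕ → ℕ) (A : PProb) : Prop :=
  ∃ (V : List Bool × List Bool → Bool) (f : ℕ → ℕ), IsPolyTime V ∧ Computable f ∧ ∀ x,
    x ∉ A.Q ↔ ∃ w : List Bool, w.length ≤ f (A.κ x) * (x.length + 1) ^ e (A.κ x) ∧ V (x, w) = true

end Pool.Agent.Lib.MP_ddf912_lc
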