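import Pool.Agent.Lib.MP_ddf912_lc.Dj.Defs

namespace Pool.Agent.Lib.MP_ddf912_lc

open Turing N487b59b3

/-- Reductions to a disjunction of short conjunctions of positive and negative queries,
running in time `f (κ x) * (|x| + 1) ^ e (κ x)`. -/
def DnfRed (e : ℕ → ℕ) (A B : PProb) : Prop :=
  ∃ (R : List Bool → List (List (List Bool × Bool))) (M : TM2ComputableAux Bool Bool)
    (f g : ℕ → ℕ), Computable f ∧ Computable g ∧ ∀ x,
      Nonempty (TM2OutputsInTime M.tm (x.map M.inputAlphabet.invFun)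
        (some ((bitEncode (R x)).map M.outputAlphabet.invFun))
        (f (A.κ x) * (x.length + 1) ^ e (A.κ x))) ∧
      (x ∈ A.Q ↔ ∃ τ ∈ R x, ∀ l ∈ τ, (l.1 ∈ B.Q ↔ l.2 = true)) ∧
      ∀ τ ∈ R x, τ.length ≤ (Nat.log 2 (x.length + 1) + 2) ^ g (A.κ x) ∧
        ∀ l ∈ τ, B.κ l.1 ≤ g (A.κ x)

end Pool.Agent.Lib.MP_ddf912_lc
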