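import Pool.Agent.Lib.MP_ddf912_lc.Dj.Main
import Pool.Agent.Lib.MP_ddf912_lc.Dj.DnfDefs

namespace Pool.Agent.Lib.MP_ddf912_lc.Dj

open Turing N487b59b3 N68a2faeb Pool.Agent.Lib.helper82

attribute [local irreducible] lay hand ok

abbrev Trm := List (List Bool × Bool)

def leT (le : List Bool × List Bool → Bool) (a : Trm × Trm) : Bool :=
  a.2.all fun l' => a.1.any fun l => decide (l.2 = l'.2) && le (l.1, l'.1) && le (l'.1, l.1)

theorem leT_pt {le : List Bool × List Bool → Bool} (hle : PT le) : PT (leT le) := by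
  have h1 : PT fun p : ((Trm × Trm) × List Bool × Bool) × List Bool × Bool => p.2.1 :=
    PT.fst PT.snd'
  have h2 : PT fun p : ((Trm × Trm) × List Bool × Bool) × List Bool × Bool => p.1.2.1 :=
    PT.fst (PT.snd PT.fst')
  have h3 : PT fun p : (Trm × Trm) × List Bool × Bool => p.1.1.any fun l =>
      decide (l.2 = p.2.2) && le (l.1, p.2.1) && le (p.2.1, l.1) :=
    PT.any (P := fun (p : (Trm × Trm) × List Bool × Bool) (l : List Bool × Bool) =>
      decide (l.2 = p.2.2) && le (l.1, p.2.1) && le (p.2.1, l.1)) (PT.fst PT.fst')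
      (PT.and (PT.and (PT.eq (PT.snd PT.snd') (PT.snd (PT.snd PT.fst')))
        (PT.comp hle (PT.pair h1 h2) :)) (PT.comp hle (PT.pair h2 h1) :))
  exact PT.all (P := fun (a : Trm × Trm) (l' : List Bool × Bool) => a.1.any fun l =>
    decide (l.2 = l'.2) && le (l.1, l'.1) && le (l'.1, l.1)) PT.snd' h3

def testT (sm : Box → Bool × List Trm) (le : Trm × Trm → Bool) (A : Box) (As : List Box) : Bool :=
  (sm A).1 && (As.all fun A' => (sm A').1) &&
    (sm A).2.all fun y => As.any fun A' => (sm A').2.any fun y' => le (y, y')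

theorem testT_pt {α : Type} [Enc α] {sm : α → Box → Bool × List Trm}
    {le : Trm × Trm → Bool} {A : α → Box} {As : α → List Box}
    (hsm : PT fun p : α × Box => sm p.1 p.2) (hle : PT le) (hA : PT A) (hAs : PT As) :
    PT fun a => testT (sm a) le (A a) (As a) := by
  have h1 : PT fun a : α => sm a (A a) := (PT.comp hsm (PT.pair PT.id hA) :)
  have h2 : PT fun a : α => (As a).all fun A' => (sm a A').1 :=
    PT.all (P := fun (a : α) (A' : Box) => (sm a A').1) hAs (PT.fst hsm)
  have h3 : PT fun p : (α × Trm) × Box => (p.1.1, p.2) := PT.pair (PT.fst PT.fst') PT.snd'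
  have h4 : PT fun p : (α × Trm) × Box => sm p.1.1 p.2 := (PT.comp hsm h3 :)
  have h5 : PT fun p : ((α × Trm) × Box) × Trm => (p.1.1.2, p.2) :=
    PT.pair (PT.snd (PT.fst PT.fst')) PT.snd'
  have h6 : PT fun p : (α × Trm) × Box => (sm p.1.1 p.2).2.any fun y' => le (p.1.2, y') :=
    PT.any (P := fun (p : (α × Trm) × Box) (y' : Trm) => le (p.1.2, y')) (PT.snd h4)
      (PT.comp hle h5 :)
  have h7 : PT fun p : α × Trm => (As p.1).any fun A' => (sm p.1 A').2.any fun y' =>
      le (p.2, y') :=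
    PT.any (P := fun (p : α × Trm) (A' : Box) => (sm p.1 A').2.any fun y' => le (p.2, y'))
      (PT.comp hAs PT.fst') h6
  exact PT.and (PT.and (PT.fst h1) h2) (PT.all (P := fun (a : α) (y : Trm) =>
    (As a).any fun A' => (sm a A').2.any fun y' => le (y, y')) (PT.snd h1) h7)

theorem polylogT {z : ℕ} (hz : 1 ≤ z) (c d g k : ℕ) :
    (6 * (((2 * (c * z.size) + 1) ^ d + 1 + 2) * (z.size + 2) ^ g) + 4) ^ k * (z.size + 1) ^ k ≤
      2 ^ (56 * (2 * c + 1) ^ d * 2 ^ (2 * g) * k +
        ((d + 1 + g) * k * ((d + 1 + g) * k) + (d + 1 + g) * k) + 1) * z := by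
  set s := z.size with hs
  have h0 : 1 ≤ s := Nat.size_pos.2 (by omega)
  have h1 : (2 * (c * s) + 1) ^ d ≤ (2 * c + 1) ^ d * s ^ d := by
    rw [← mul_pow]; exact Nat.pow_le_pow_left (by nlinarith) d
  have h2 : 1 ≤ (2 * c + 1) ^ d * s ^ d := Nat.succ_le_of_lt (by positivity)
  have h4 : (s + 2) ^ g ≤ 2 ^ (2 * g) * s ^ g := by
    rw [pow_mul, ← mul_pow]; exact Nat.pow_le_pow_left (by omega) g
  have h5 : 1 ≤ 2 ^ (2 * g) * s ^ g := Nat.succ_le_of_lt (by positivity)
  have h6 : ((2 * (c * s) + 1) ^ d + 1 + 2) * (s + 2) ^ g ≤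
      (4 * ((2 * c + 1) ^ d * s ^ d)) * (2 ^ (2 * g) * s ^ g) := Nat.mul_le_mul (by omega) h4
  have h7 := Nat.mul_le_mul h2 h5
  have h3 : (6 * (((2 * (c * s) + 1) ^ d + 1 + 2) * (s + 2) ^ g) + 4) * (s + 1) ≤
      56 * (2 * c + 1) ^ d * 2 ^ (2 * g) * s ^ (d + 1 + g) := by
    calc _ ≤ (28 * (((2 * c + 1) ^ d * s ^ d) * (2 ^ (2 * g) * s ^ g))) * (2 * s) :=
          Nat.mul_le_mul (by rw [mul_assoc 4] at h6; omega) (by omega)
      _ = _ := by ring
  rw [← mul_pow]
  calc _ ≤ (56 * (2 * c + 1) ^ d * 2 ^ (2 * g) * s ^ (d + 1 + g)) ^ k := Nat.pow_le_pow_left h3 k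
    _ = (56 * (2 * c + 1) ^ d * 2 ^ (2 * g)) ^ k * s ^ ((d + 1 + g) * k) := by
        rw [mul_pow, ← pow_mul]
    _ ≤ 2 ^ (56 * (2 * c + 1) ^ d * 2 ^ (2 * g) * k) *
          (2 ^ ((d + 1 + g) * k * ((d + 1 + g) * k) + (d + 1 + g) * k) * (2 * z)) :=
        Nat.mul_le_mul (pow_le_two_pow' _ _) ((pow_le_two_pow _ _).trans
          (Nat.mul_le_mul_left _ (two_pow_size_le hz)))
    _ = _ := by ring

theorem card_trm {U : Type} [Fintype U] {b : ℕ} (h : Fintype.card U = 2 ^ b) (t : ℕ) :
    Fintype.card (Fin t → Option (U × Bool)) ≤ 2 ^ ((b + 2) * t) := by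
  rw [Fintype.card_fun, Fintype.card_option, Fintype.card_prod, h, Fintype.card_fin,
    Fintype.card_bool, pow_mul]
  refine Nat.pow_le_pow_left ?_ t
  have : 1 ≤ 2 ^ b := Nat.one_le_two_pow
  rw [pow_add]; omega

theorem eq_of_fin {β : Type} {t : ℕ} {l l' : List β} (h : l.length ≤ t) (h' : l'.length ≤ t)
    (e : (fun i : Fin t => l[i.val]?) = fun i : Fin t => l'[i.val]?) : l = l' := by
  apply List.ext_getElem?
  intro i
  by_cases hi : i < t
  · exact congrFun e ⟨i, hi⟩
  · rw [List.getElem?_eq_none (by omega), List.getElem?_eq_none (by omega)]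

attribute [local irreducible] testT layOK leT

theorem mainT {d : ℕ} {e : ℕ → ℕ} (he : Computable e) (h : DnfRed e pClique (pLogSat d)) :
    ∃ (C : ℕ) (W : List Bool × List Bool → Bool) (F : ℕ → ℕ), PT W ∧ Computable F ∧
      (∀ x w, W (x, w) = true → x ∉ pClique.Q) ∧ ∀ x, x ∉ pClique.Q → ∃ w : List Bool,
        w.length ≤ F (pClique.κ x) * (x.length + 1) ^ (C * (e (pClique.κ x) + 1)) ∧
          W (x, w) = true := by
  classical
  obtain ⟨R, M, f, g, hf, hg, hr⟩ := h
  obtain ⟨sim, hsim, hs0⟩ := exists_sim_flag M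
  have hs := fun x clk => hs0 x (bitEncode (R x)) clk _ (hr x).1
  obtain ⟨le, hle, hle1, hle2⟩ := exists_le d
  obtain ⟨p, hp, ep⟩ := prs_inst
  obtain ⟨pl, hpl, epl⟩ : Prs (List Trm) :=
    Prs.list (Prs.list ((Prs.list Prs.bool).prod Prs.bool))
  have pB : Prs Box := Prs.list (Prs.nat.prod Prs.nat)
  obtain ⟨pw, hpw, epw⟩ : Prs (List Bool × List ℕ × List Rcd) := (Prs.list Prs.bool).prod
    ((Prs.list Prs.nat).prod (Prs.list ((Prs.list (Prs.nat.prod (Prs.nat.prod
      (Prs.list Prs.nat)))).prod (pB.prod (Prs.list pB)))))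
  have hlay : PT fun a : Inst × Box => lay a.1.2.1 a.1.2.2 a.2 :=
    lay_pt (PT.fst (PT.snd PT.fst')) (PT.snd (PT.snd PT.fst')) PT.snd'
  obtain ⟨q, hq⟩ := hlay.sz_bd
  obtain ⟨q', hq'⟩ := hsim.sz_bd
  obtain ⟨sm, hsmd⟩ : ∃ sm : Inst → List Bool → Box → Bool × List Trm, ∀ I clk A,
      sm I clk A = ((sim (enc (lay I.2.1 I.2.2 A), clk)).1,
        pl (sim (enc (lay I.2.1 I.2.2 A), clk)).2) := ⟨_, fun _ _ _ => rfl⟩
  have hsm : PT fun a : (Inst × List Bool) × Box => sm a.1.1 a.1.2 a.2 := by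
    have h0 : PT fun a : (Inst × List Bool) × Box => (a.1.1, a.2) :=
      PT.pair (PT.fst PT.fst') PT.snd'
    have h1 : PT fun a : (Inst × List Bool) × Box => lay a.1.1.2.1 a.1.1.2.2 a.2 :=
      (PT.comp hlay h0 :)
    have h2 := PT.comp hsim (PT.pair (PT.comp PT.encList h1) (PT.snd PT.fst'))
    exact (PT.pair (PT.fst h2) (PT.comp hpl (PT.snd h2))).congr fun a => (hsmd _ _ _).symm
  have hflag : ∀ I clk A, (sm I clk A).1 = true →
      (sm I clk A).2 = R (enc (lay I.2.1 I.2.2 A)) := by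
    intro I clk A h
    rw [hsmd] at h ⊢
    simp only at h ⊢
    rw [(hs _ _).2 h]
    exact epl _
  have hI : PT fun a : List Bool × List Bool => p a.1 := PT.comp hp PT.fst'
  have hW : PT fun a : List Bool × List Bool => pw a.2 := PT.comp hpw PT.snd'
  have ht : PT fun a : (List Bool × List Bool) × Rcd =>
      testT (sm (p a.1.1) (pw a.1.2).1) (leT le) a.2.2.1 a.2.2.2 := by
    have h0 : PT fun a : ((List Bool × List Bool) × Rcd) × Box => a.1.1 := PT.fst PT.fst'
    have h1 : PT fun a : ((List Bool × List Bool) × Rcd) × Box =>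
        ((p a.1.1.1, (pw a.1.1.2).1), a.2) :=
      PT.pair (PT.pair (PT.comp hI h0 :) (PT.fst (PT.comp hW h0 :))) PT.snd'
    exact testT_pt (sm := fun a : (List Bool × List Bool) × Rcd => sm (p a.1.1) (pw a.1.2).1)
      (PT.comp hsm h1 :) (leT_pt hle) (PT.fst (PT.snd PT.snd')) (PT.snd (PT.snd PT.snd'))
  have hall := allok_pt (test := fun a : List Bool × List Bool =>
    testT (sm (p a.1) (pw a.2).1) (leT le)) (PT.fst hI) (PT.fst (PT.snd hI)) (PT.snd (PT.snd hI))
    (PT.fst (PT.snd hW)) (PT.snd (PT.snd hW)) ht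
  obtain ⟨e0, he0⟩ := ((((((Bd.const 2).mul Bd.self).add (Bd.const 1)).add (Bd.self.mul
    (((Bd.const 6).mul Bd.self).add (Bd.const 3)))).eval q).add Bd.self).le_pow
  have b1 := (((Bd.const 9).mul Bd.self).add (Bd.const (sz := fun z : ℕ => z) 1)).eval q'
  obtain ⟨e1, he1⟩ := b1.le_pow
  have b2 : Bd (fun z => z) fun z => z ^ e1 + 1 := (Bd.self.pow e1).add (Bd.const 1)
  have b3 : Bd (fun z => z) fun z => 2 * (z * (10 * z + 5)) + 1 +
      (z ^ e1 + 1) * (2 * (z * (6 * z + 3)) + 1) :=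
    (((Bd.const 2).mul (Bd.self.mul (((Bd.const 10).mul Bd.self).add (Bd.const 5)))).add
      (Bd.const 1)).add (b2.mul (((Bd.const 2).mul (Bd.self.mul (((Bd.const 6).mul Bd.self).add
        (Bd.const 3)))).add (Bd.const 1)))
  obtain ⟨e3, he3⟩ := (((((Bd.const 6).mul Bd.self).add (Bd.const 2)).add ((Bd.const 2).mul
    (Bd.self.mul (((Bd.const 2).mul Bd.self).add (Bd.const 1))))).add
    (((Bd.self.mul b2).mul Bd.self).mul (((Bd.const 2).mul b3).add (Bd.const 1)))).le_pow
  let G : ℕ → ℕ := fun k => 2 ^ (56 * (2 * (g k * e1) + 1) ^ d * 2 ^ (2 * g k) * k +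
    ((d + 1 + g k) * k * ((d + 1 + g k) * k) + (d + 1 + g k) * k) + 1)
  have hdk : Computable fun k => (d + 1 + g k) * k :=
    computable_mul (computable_add (Computable.const _) hg) Computable.id
  have hG : Computable G := computable_two_pow (computable_add (computable_add (computable_mul
    (computable_mul (computable_mul (Computable.const 56) (computable_pow (computable_add (computable_mul
      (Computable.const 2) (computable_mul hg (Computable.const e1))) (Computable.const 1)) d))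
      (computable_two_pow (computable_mul (Computable.const 2) hg))) Computable.id) (computable_add (computable_mul hdk hdk) hdk)) (Computable.const 1))
  refine ⟨e0 * e3, fun a => !decide (enc (p a.1) = a.1) || (decide (1 ≤ (p a.1).2.2) &&
      layOK (p a.1).2.2 (pw a.2).2.1 && hand (pw a.2).2.2 [] (p a.1).1 &&
      (pw a.2).2.2.all fun r => ok (p a.1).1 (p a.1).2.1 (p a.1).2.2 (pw a.2).2.1
        (testT (sm (p a.1) (pw a.2).1) (leT le)) (pw a.2).2.2 r),
    fun k => G k * ((f k + 2) * 2 ^ ((k + 2) * (e0 * (e k + 1)))) ^ e3,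
    PT.or (PT.not (PT.eq (PT.comp PT.encList hI) PT.fst'))
      (PT.and (PT.and (PT.and (PT.le (PT.const 1) (PT.snd (PT.snd hI)))
        (layOK_pt (PT.snd (PT.snd hI)) (PT.fst (PT.snd hW))))
        (hand_pt (PT.snd (PT.snd hW)) (PT.const []) (PT.fst hI))) hall),
    computable_mul hG (computable_pow (computable_mul (computable_add hf (Computable.const 2))
      (computable_two_pow (computable_mul (computable_add Computable.id (Computable.const 2))
        (computable_mul (Computable.const e0) (computable_add he (Computable.const 1)))))) e3),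
    ?_, ?_⟩
  · rintro x w hw ⟨⟨V, E, k⟩, rfl, hyes⟩
    have e0 : bitEncode ((V, E, k) : Inst) = enc ((V, E, k) : Inst) := rfl
    simp only [e0, ep, decide_true, Bool.not_true, Bool.false_or, Bool.and_eq_true,
      decide_eq_true_eq, List.all_eq_true] at hw
    obtain ⟨⟨⟨h1, h2⟩, h3⟩, h4⟩ := hw
    refine sound (layOK_sound h2) h1 ?_ h4 h3 (tup_of_yes hyes)
    intro A As h5 h6 h7
    unfold testT at h5
    simp only [Bool.and_eq_true, List.all_eq_true, List.any_eq_true] at h5
    obtain ⟨⟨a1, a2⟩, a3⟩ := h5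
    obtain ⟨y, hy, hy'⟩ := (hr _).2.1.1 ((mem_coded _ _ _).2 (yes_lay h7))
    obtain ⟨A', a4, y', a5, a6⟩ := a3 y (by rw [hflag _ _ _ a1]; exact hy)
    rw [hflag _ _ _ (a2 A' a4)] at a5
    refine ⟨A', a4, has_of_yes (h6 A' a4) ?_⟩
    refine (mem_coded _ _ _).1 ((hr _).2.1.2 ⟨y', a5, fun l' hl' => ?_⟩)
    unfold leT at a6
    simp only [List.all_eq_true, List.any_eq_true, Bool.and_eq_true, decide_eq_true_eq] at a6
    obtain ⟨l, hl, ⟨c1, c2⟩, c3⟩ := a6 l' hl'
    rw [← c1, ← hy' l hl]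
    exact ⟨fun c4 => by_contra fun c5 => hle1 _ _ c3 c5 c4,
      fun c4 => by_contra fun c5 => hle1 _ _ c2 c5 c4⟩
  · intro x hx
    by_cases hval : enc (p x) = x
    swap
    · exact ⟨[], by simp, by simp [hval]⟩
    obtain ⟨⟨V, E, k⟩, rfl⟩ : ∃ I : Inst, enc I = x := ⟨_, hval⟩
    have hno : ¬ Yes (V, E, k) := fun h => hx ((mem_coded _ _ _).2 h)
    have hk : 1 ≤ k := by
      by_contra h0
      obtain rfl : k = 0 := by omega
      exact hno ⟨∅, by simp, by simp⟩
    have hκ : ∀ A, pClique.κ (enc (lay E k A)) = k := fun A => by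
      refine (κ_coded _ _ _).trans ?_
      unfold lay; rfl
    have hκ' : pClique.κ (enc ((V, E, k) : Inst)) = k := κ_coded _ _ _
    set N := sz ((V, E, k) : Inst) with hN
    have hVN : sz V ≤ N := by rw [hN, sz_prod]; omega
    have hVl := length_le_sz V
    set z0 := (k + 2) * (N + 1) with hz0
    have z1 : k ≤ z0 ∧ N ≤ z0 ∧ 2 ≤ z0 ∧ k * V.length ≤ z0 := by
      have := Nat.mul_le_mul_left k (hVl.trans hVN)
      refine ⟨?_, ?_, ?_, ?_⟩ <;> nlinarith [Nat.zero_le (k * N)]
    set Y := z0 ^ e0 with hY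
    have hY1 := he0 z0 z1.2.2.1
    simp only [← hY] at hY1
    set T := f k * Y ^ e k with hT
    set z := (f k + 2) * Y ^ (e k + 1) with hz
    have z2 : T ≤ z ∧ Y ≤ z := by
      have a1 : Y ^ e k ≤ Y ^ (e k + 1) := Nat.pow_le_pow_right (by omega) (by omega)
      have a2 : Y ≤ Y ^ (e k + 1) := Nat.le_self_pow (by omega) _
      exact ⟨Nat.mul_le_mul (by omega) a1, a2.trans (Nat.le_mul_of_pos_left _ (by omega))⟩
    have z3 : z0 ≤ z := by omega
    set clk := List.replicate T true with hclk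
    set n₀ := g k * (z.size * e1) with hn₀
    obtain ⟨lab, hlab⟩ := hle2 n₀
    have key : ∀ A, SmallB V k A → (sm (V, E, k) clk A).1 = true ∧
        (sm (V, E, k) clk A).2.length ≤ z ^ e1 ∧
          ∀ τ ∈ (sm (V, E, k) clk A).2, τ.length ≤ (z.size + 2) ^ g k ∧
            ∀ l ∈ τ, ∀ φ : CNF, enc φ = l.1 → nvars φ ≤ n₀ := by
      intro A hA
      have h7 := sz_box z1.1 (hVN.trans z1.2.1) z1.2.2.2 hA
      have h8 : (enc (lay E k A)).length + 1 ≤ Y := by
        have := (hq ((V, E, k), A)).trans (eval_mono q (show _ ≤ 2 * z0 + 1 + z0 * (6 * z0 + 3) by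
          rw [sz_prod, ← hN]; omega))
        simp only [sz] at this
        omega
      have h9 := (hs (enc (lay E k A)) clk).1 (by
        rw [hκ, hclk, List.length_replicate]
        exact Nat.mul_le_mul_left _ (Nat.pow_le_pow_left h8 _))
      have h9' : (sm (V, E, k) clk A).1 = true := by rw [hsmd]; exact h9
      have h10 := (hs (enc (lay E k A)) clk).2 h9
      rw [hflag _ _ _ h9']
      have h12 := hq' (enc (lay E k A), clk)
      have h13 : sz (sim (enc (lay E k A), clk)) = 2 * 1 + 1 + 3 * sz (R (enc (lay E k A))) := by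
        rw [sz, sz, show enc (R (enc (lay E k A))) = (sim (enc (lay E k A), clk)).2 from h10.symm,
          ← PT.sz_listBool]
        exact sz_prod (sim (enc (lay E k A), clk)).1 (sim (enc (lay E k A), clk)).2
      have h14 := eval_mono q' (show sz ((enc (lay E k A), clk) : List Bool × List Bool) ≤
          9 * z + 1 by
        rw [sz_prod, PT.sz_listBool, PT.sz_listBool, hclk, List.length_replicate]; omega)
      have h15 := he1 z (by omega)
      have h16 : sz (R (enc (lay E k A))) ≤ z ^ e1 := by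
        simp only at h12 h15
        omega
      refine ⟨h9', (length_le_sz _).trans h16, fun τ hτ => ⟨?_, ?_⟩⟩
      · have h11 := ((hr (enc (lay E k A))).2.2 τ hτ).1
        rw [hκ] at h11
        refine h11.trans (Nat.pow_le_pow_left (Nat.add_le_add_right ?_ 2) _)
        exact (Nat.log_lt_of_lt_pow (by omega)
          (lt_of_le_of_lt (by omega) (Nat.lt_size_self z))).le
      rintro ⟨y, a⟩ hy φ hφ
      have h11 := ((hr (enc (lay E k A))).2.2 τ hτ).2 _ hy
      simp only at hφ h11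
      rw [hκ, ← hφ] at h11
      refine nvars_le ((κ_coded _ _ φ).symm.le.trans h11) ?_
      have h19 := sz_le_of_mem hτ
      have h17 := sz_le_of_mem hy
      rw [sz_prod, ← hφ, PT.sz_listBool] at h17
      have h18 : z ^ e1 ≤ 2 ^ (z.size * e1) := by
        rw [pow_mul]; exact Nat.pow_le_pow_left (Nat.lt_size_self z).le _
      change (enc φ).length ≤ _
      simp only at h19
      omega
    obtain ⟨P, hP1, hP2, hP3⟩ := complete (V := V) (E := E) (k := k)
      (test := testT (sm (V, E, k) clk) (leT le))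
      (fun A => ((sm (V, E, k) clk A).2.map fun τ => fun i : Fin ((z.size + 2) ^ g k) =>
        (τ.map fun l => (lab l.1, l.2))[i.val]?).toFinset) (z ^ e1)
      (((2 * n₀ + 1) ^ d + 1 + 2) * (z.size + 2) ^ g k) z.size
      (fun A hA => (List.toFinset_card_le _).trans (by
        rw [List.length_map]; exact (key A hA).2.1))
      (by convert card_trm (card_labels d n₀) ((z.size + 2) ^ g k)) (by
        intro A As hA hAs hc
        unfold testT
        simp only [Bool.and_eq_true, List.all_eq_true, List.any_eq_true]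
        refine ⟨⟨(key A hA).1, fun A' hA' => (key A' (hAs A' hA')).1⟩, fun y hy => ?_⟩
        obtain ⟨A', a1, a2⟩ := hc _ (List.mem_toFinset.2 (List.mem_map_of_mem hy))
        obtain ⟨y', a3, a4⟩ := List.mem_map.1 (List.mem_toFinset.1 a2)
        obtain ⟨a5, a6⟩ := (key A' (hAs A' a1)).2.2 y' a3
        obtain ⟨a7, a8⟩ := (key A hA).2.2 y hy
        have a9 := eq_of_fin (by rwa [List.length_map]) (by rwa [List.length_map]) a4
        refine ⟨A', a1, y', a3, ?_⟩
        unfold leT
        simp only [List.all_eq_true, List.any_eq_true, Bool.and_eq_true, decide_eq_true_eq]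
        intro l' hl'
        obtain ⟨l, hl, c1⟩ := List.mem_map.1
          (a9 ▸ List.mem_map_of_mem (f := fun l : List Bool × Bool => (lab l.1, l.2)) hl')
        simp only [Prod.mk.injEq] at c1
        exact ⟨l, hl, ⟨c1.2, hlab _ _ (a6 l' hl') c1.1⟩, hlab _ _ (a8 l hl) c1.1.symm⟩)
      (fun ⟨y, hy⟩ => hno (yes_of_tup hy)) hk
      (lt_of_le_of_lt (by have := List.toFinset_card_le V; omega) (Nat.lt_size_self z))
    refine ⟨enc (clk, List.range k, P), ?_, ?_⟩
    · have h5 := sz_le_of_forall _ P fun r hr => sz_rcd (z := z) (by omega) (by omega) (by omega)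
        (hP2 r hr).2.1 (hP2 r hr).2.2.1 (hP2 r hr).2.2.2.1 (hP2 r hr).2.2.2.2
      have h6 : P.length ≤ G k * (z * (z ^ e1 + 1) * z) := by
        have a1 := polylogT (z := z) (by omega) (g k * e1) d (g k) k
        rw [show g k * e1 * z.size = n₀ by rw [hn₀]; ring] at a1
        have a2 : V.toFinset.card ≤ z := by have := List.toFinset_card_le V; omega
        calc P.length ≤ _ := hP3
          _ = V.toFinset.card * (z ^ e1 + 1) *
              ((6 * (((2 * n₀ + 1) ^ d + 1 + 2) * (z.size + 2) ^ g k) + 4) ^ k *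
                (z.size + 1) ^ k) := by ring
          _ ≤ z * (z ^ e1 + 1) * (G k * z) := Nat.mul_le_mul (Nat.mul_le_mul_right _ a2) a1
          _ = _ := by ring
      have h7 := h5.trans (Nat.mul_le_mul_right _ h6)
      have h8 := sz_range (k := k) (z := z) (by omega)
      have h9 := he3 z (by omega)
      have h10 : 1 ≤ G k := Nat.one_le_two_pow
      have h11 : z ≤ (f k + 2) * 2 ^ ((k + 2) * (e0 * (e k + 1))) * (N + 1) ^ (e0 * (e k + 1)) := by
        rw [hz, hY, ← pow_mul, hz0, mul_pow, mul_assoc]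
        exact Nat.mul_le_mul_left _ (Nat.mul_le_mul_right _ (pow_le_two_pow' _ _))
      have h12 := Nat.mul_le_mul_left (G k) (h9.trans (Nat.pow_le_pow_left h11 e3))
      change sz (clk, List.range k, P) ≤ _ * (N + 1) ^ _
      rw [sz_prod, sz_prod, PT.sz_listBool, hclk, List.length_replicate, hκ',
        show e0 * e3 * (e k + 1) = e0 * (e k + 1) * e3 by ring, pow_mul (N + 1), mul_assoc,
        ← mul_pow]
      refine le_trans ?_ h12
      rw [mul_add, ← mul_assoc (G k)]
      have h13 := Nat.le_mul_of_pos_left (6 * z + 2 + 2 * (z * (2 * z + 1))) h10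
      omega
    · simp only [ep, epw, hk, layOK_range hk, hP1, decide_true, Bool.and_self, Bool.true_and,
        Bool.not_true, Bool.false_or, List.all_eq_true]
      exact fun r hr => (hP2 r hr).1

theorem refutableT {d : ℕ} {e : ℕ → ℕ} (he : Computable e) (h : DnfRed e pClique (pLogSat d)) :
    ∃ C, Refutable (fun k => C * (e k + 1)) pClique := by
  obtain ⟨C, W, F, h1, h2, h3, h4⟩ := mainT he h
  exact ⟨C, W, F, h1.isPolyTime, h2, fun x => ⟨h4 x, fun ⟨w, _, hw⟩ => h3 x w hw⟩⟩

end Pool.Agent.Lib.MP_ddf912_lc.Dj
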