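import Pool.Agent.Lib.MP_ddf912_lc.Dj.Comp

namespace Pool.Agent.Lib.MP_ddf912_lc.Dj

open Turing N487b59b3 N68a2faeb Pool.Agent.Lib.helper82

attribute [local irreducible] tag

def nb (E : List (ℕ × ℕ)) (A : Box) (a : ℕ × ℕ) : List (ℕ × ℕ) :=
  (A.filter fun b => !decide (a.1 = b.1) && adjB E a.2 b.2).map fun b => (tag true a, tag true b)

def lay (E : List (ℕ × ℕ)) (k : ℕ) (A : Box) : Inst :=
  (A.map fun a => tag true a, A.flatMap (nb E A), k)

variable {V : List ℕ} {E : List (ℕ × ℕ)} {k : ℕ}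

theorem adjB_iff {u v : ℕ} :
    adjB E u v = true ↔ (SimpleGraph.fromRel fun u v => (u, v) ∈ E).Adj u v := by
  simp [adjB, SimpleGraph.fromRel_adj]

theorem adjB_symm {u v : ℕ} (h : adjB E u v = true) : adjB E v u = true :=
  adjB_iff.2 (adjB_iff.1 h).symm

theorem mem_lay {A : Box} {x y : ℕ} : (x, y) ∈ (lay E k A).2.1 ↔ ∃ a ∈ A, ∃ b ∈ A, a.1 ≠ b.1 ∧
    adjB E a.2 b.2 = true ∧ tag true a = x ∧ tag true b = y := by
  simp only [lay, nb, List.mem_flatMap, List.mem_map, List.mem_filter, Bool.and_eq_true,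
    Bool.not_eq_true', decide_eq_false_iff_not, Prod.mk.injEq]
  exact ⟨fun ⟨a, h1, b, ⟨h2, h3, h4⟩, h5⟩ => ⟨a, h1, b, h2, h3, h4, h5⟩,
    fun ⟨a, h1, b, h2, h3, h4, h5⟩ => ⟨a, h1, b, ⟨h2, h3, h4⟩, h5⟩⟩

theorem yes_lay {A : Box} (h : Has V E k A) : Yes (lay E k A) := by
  obtain ⟨y, h1, h2⟩ := h
  have hinj : Function.Injective fun l : ℕ => tag true (l, y l) := fun a b h =>
    congrArg Prod.fst (tag_injective true h)
  refine ⟨(Finset.range k).image fun l => tag true (l, y l), fun x hx => ?_, ?_, ?_⟩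
  · obtain ⟨l, hl, rfl⟩ := Finset.mem_image.1 hx
    exact List.mem_map_of_mem (h2 l (Finset.mem_range.1 hl))
  · intro x hx x' hx' hne
    obtain ⟨l, hl, rfl⟩ := Finset.mem_image.1 hx
    obtain ⟨l', hl', rfl⟩ := Finset.mem_image.1 hx'
    rw [Finset.mem_range] at hl hl'
    have h3 : l ≠ l' := fun e => hne (by rw [e])
    rw [SimpleGraph.fromRel_adj]
    exact ⟨hne, Or.inl (mem_lay.2 ⟨_, h2 l hl, _, h2 l' hl', h3, h1.2 l hl l' hl' h3, rfl, rfl⟩)⟩
  · rw [Finset.card_image_of_injective _ hinj, Finset.card_range]; rfl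

theorem has_of_yes {A : Box} (hA : ∀ a ∈ A, a.1 < k ∧ a.2 ∈ V) (h : Yes (lay E k A)) :
    Has V E k A := by
  obtain ⟨T, hT, hc⟩ := h
  have hcard : T.card = k := hc.card_eq
  let T' := A.toFinset.filter fun a => tag true a ∈ T
  have h1 : ∀ a ∈ T', ∀ b ∈ T', a ≠ b → a.1 ≠ b.1 ∧ adjB E a.2 b.2 = true := by
    intro a ha b hb hab
    have h2 := hc.isClique (Finset.mem_filter.1 ha).2 (Finset.mem_filter.1 hb).2
      fun e => hab (tag_injective true e)
    rw [SimpleGraph.fromRel_adj, mem_lay, mem_lay] at h2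
    rcases h2.2 with ⟨a', -, b', -, h3, h4, h5, h6⟩ | ⟨a', -, b', -, h3, h4, h5, h6⟩ <;>
      obtain rfl := tag_injective true h5 <;> obtain rfl := tag_injective true h6
    · exact ⟨h3, h4⟩
    · exact ⟨h3.symm, adjB_symm h4⟩
  have h2 : T'.card = k := by
    rw [← Finset.card_image_of_injective T' (tag_injective true), ← hcard]
    congr 1
    ext x
    simp only [Finset.mem_image, T', Finset.mem_filter, List.mem_toFinset]
    refine ⟨fun ⟨a, h3, h4⟩ => h4 ▸ h3.2, fun hx => ?_⟩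
    obtain ⟨a, ha, rfl⟩ := List.mem_map.1 (hT x hx)
    exact ⟨a, ⟨ha, hx⟩, rfl⟩
  have h3 : ∀ a ∈ T', a ∈ A := fun a ha => List.mem_toFinset.1 (Finset.mem_filter.1 ha).1
  have h4 : T'.image Prod.fst = Finset.range k := by
    refine Finset.eq_of_subset_of_card_le (fun l hl => ?_) ?_
    · obtain ⟨a, ha, rfl⟩ := Finset.mem_image.1 hl
      exact Finset.mem_range.2 (hA a (h3 a ha)).1
    · rw [Finset.card_image_of_injOn, h2, Finset.card_range]
      intro a ha b hb e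
      by_contra hab
      exact (h1 a ha b hb hab).1 e
  have h5 : ∀ l, ∃ v, l < k → (l, v) ∈ T' := by
    intro l
    by_cases hl : l < k
    · obtain ⟨a, ha, rfl⟩ := Finset.mem_image.1 (h4 ▸ Finset.mem_range.2 hl : l ∈ T'.image Prod.fst)
      exact ⟨a.2, fun _ => ha⟩
    · exact ⟨0, fun h => absurd h hl⟩
  choose y hy using h5
  exact ⟨y, ⟨fun l hl => (hA _ (h3 _ (hy l hl))).2, fun l hl l' hl' hne =>
    (h1 _ (hy l hl) _ (hy l' hl') fun e => hne (congrArg Prod.fst e)).2⟩,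
    fun l hl => h3 _ (hy l hl)⟩

theorem tup_of_yes (h : Yes (V, E, k)) : ∃ y, Tup V E k y := by
  obtain ⟨S, h1, h2⟩ := h
  let e := (Finset.equivFinOfCardEq h2.card_eq).symm
  refine ⟨fun l => if h : l < k then (e ⟨l, h⟩ : ℕ) else 0, fun l hl => ?_,
    fun l hl l' hl' hne => ?_⟩
  · simp only [dif_pos hl]
    exact h1 _ (e ⟨l, hl⟩).2
  · simp only [dif_pos hl, dif_pos hl']
    refine adjB_iff.2 (h2.isClique (e ⟨l, hl⟩).2 (e ⟨l', hl'⟩).2 fun h => hne ?_)
    exact congrArg Fin.val (e.injective (Subtype.ext h))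

theorem yes_of_tup {y : ℕ → ℕ} (h : Tup V E k y) : Yes (V, E, k) := by
  refine ⟨(Finset.range k).image y, fun x hx => ?_, ?_, ?_⟩
  · obtain ⟨l, hl, rfl⟩ := Finset.mem_image.1 hx
    exact h.1 l (Finset.mem_range.1 hl)
  · intro x hx x' hx' hne
    obtain ⟨l, hl, rfl⟩ := Finset.mem_image.1 hx
    obtain ⟨l', hl', rfl⟩ := Finset.mem_image.1 hx'
    exact adjB_iff.1 (h.2 l (Finset.mem_range.1 hl) l' (Finset.mem_range.1 hl')
      fun e => hne (by rw [e]))
  · rw [Finset.card_image_of_injOn, Finset.card_range]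
    intro l hl l' hl' e
    by_contra hne
    exact (adjB_iff.1 (h.2 l (Finset.mem_range.1 hl) l' (Finset.mem_range.1 hl') hne)).ne e

section PTs
variable {α : Type} [Enc α]

theorem adjB_pt {E : α → List (ℕ × ℕ)} {u v : α → ℕ} (hE : PT E) (hu : PT u) (hv : PT v) :
    PT fun a => adjB (E a) (u a) (v a) :=
  PT.and (PT.not (PT.eq hu hv)) (PT.or (ptMem (PT.pair hu hv) hE) (ptMem (PT.pair hv hu) hE))

attribute [local irreducible] adjB

theorem nb_pt {E : α → List (ℕ × ℕ)} {A : α → Box} (hE : PT E) (hA : PT A) :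
    PT fun p : α × ℕ × ℕ => nb (E p.1) (A p.1) p.2 := by
  have h00 : PT fun p : (α × ℕ × ℕ) × ℕ × ℕ => p.1.1 := PT.fst PT.fst'
  have h0 : PT fun p : (α × ℕ × ℕ) × ℕ × ℕ => E p.1.1 := PT.comp hE h00
  have h01 : PT fun p : (α × ℕ × ℕ) × ℕ × ℕ => adjB (E p.1.1) p.1.2.2 p.2.2 :=
    adjB_pt h0 (PT.snd (PT.snd PT.fst')) (PT.snd PT.snd')
  have h1 : PT fun p : α × ℕ × ℕ => (A p.1).filter fun b =>
      !decide (p.2.1 = b.1) && adjB (E p.1) p.2.2 b.2 :=
    PT.filter (P := fun (p : α × ℕ × ℕ) (b : ℕ × ℕ) =>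
      !decide (p.2.1 = b.1) && adjB (E p.1) p.2.2 b.2) (PT.comp hA PT.fst')
      (PT.and (PT.not (PT.eq (PT.fst (PT.snd PT.fst')) (PT.fst PT.snd'))) h01)
  have h3 : PT fun p : (α × ℕ × ℕ) × ℕ × ℕ => (tag true p.1.2, tag true p.2) :=
    PT.pair (PT.tag true (PT.snd PT.fst')) (PT.tag true PT.snd')
  exact PT.map (F := fun (p : α × ℕ × ℕ) (b : ℕ × ℕ) => (tag true p.2, tag true b)) h1 h3

attribute [local irreducible] nb

theorem lay_pt {E : α → List (ℕ × ℕ)} {k : α → ℕ} {A : α → Box} (hE : PT E) (hk : PT k)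
    (hA : PT A) : PT fun a => lay (E a) (k a) (A a) := by
  have h4 : PT fun x : α => (A x).flatMap (nb (E x) (A x)) :=
    PT.flatMap (F := fun (x : α) => nb (E x) (A x)) hA (nb_pt hE hA)
  have h5 : PT fun p : α × ℕ × ℕ => tag true p.2 := PT.tag true PT.snd'
  have h6 : PT fun x : α => (A x).map fun a => tag true a :=
    PT.map (F := fun (_ : α) (a : ℕ × ℕ) => tag true a) hA h5
  exact PT.pair h6 (PT.pair h4 hk)

theorem hd_pt {ν : α → Node} (h : PT ν) : PT fun a => hd (ν a) := PT.headD h _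

theorem del_pt {Z : α → List ℕ} {x : α → ℕ} (hZ : PT Z) (hx : PT x) :
    PT fun a => del (Z a) (x a) :=
  PT.filter (P := fun (a : α) v => !decide (v = x a)) hZ
    (PT.not (PT.eq PT.snd' (PT.comp hx PT.fst')))

theorem hand_pt {P : α → List Rcd} {σ : α → Node} {Z : α → List ℕ} (hP : PT P) (hσ : PT σ)
    (hZ : PT Z) : PT fun a => hand (P a) (σ a) (Z a) := by
  have h1 : PT fun p : α × Rcd => p.2.1 := PT.fst PT.snd'
  have h2 : PT fun p : α × Rcd => σ p.1 := PT.comp hσ PT.fst'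
  exact PT.or (PT.isEmpty hZ) (PT.any (P := fun (a : α) (r : Rcd) =>
    decide (r.1 = ((σ a).length, (hd r.1).2.1, Z a) :: σ a)) hP
    (PT.eq h1 (PT.cons (PT.pair (PT.length h2) (PT.pair (PT.fst (PT.snd (hd_pt h1)))
      (PT.comp hZ PT.fst'))) h2)))

theorem noncl_pt {E : α → List (ℕ × ℕ)} {ν : α → Node} (hE : PT E) (hν : PT ν) :
    PT fun a => noncl (E a) (ν a) :=
  PT.any (P := fun (a : α) (e : Ent) => (ν a).any fun e' =>
      !decide (e.1 = e'.1) && !adjB (E a) e.2.1 e'.2.1) hν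
    (PT.any (P := fun (p : α × Ent) (e' : Ent) =>
      !decide (p.2.1 = e'.1) && !adjB (E p.1) p.2.2.1 e'.2.1) (PT.comp hν PT.fst')
      (PT.and (PT.not (PT.eq (PT.fst (PT.snd PT.fst')) (PT.fst PT.snd')))
        (PT.not (adjB_pt (PT.comp hE (PT.fst PT.fst')) (PT.fst (PT.snd (PT.snd PT.fst')))
          (PT.fst (PT.snd PT.snd'))))))

theorem inZ_pt {V : α → List ℕ} {k : α → ℕ} {ν : α → Node} {A : α → Box} (hV : PT V) (hk : PT k)
    (hν : PT ν) (hA : PT A) : PT fun a => inZ (V a) (k a) (ν a) (A a) := by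
  have h1 : PT fun p : α × ℕ × ℕ => (ν p.1).all fun e =>
      !decide (e.1 = p.2.1) || decide (p.2.2 ∈ e.2.2) :=
    PT.all (P := fun (p : α × ℕ × ℕ) (e : Ent) => !decide (e.1 = p.2.1) || decide (p.2.2 ∈ e.2.2))
      (PT.comp hν PT.fst') (PT.or (PT.not (PT.eq (PT.fst PT.snd') (PT.fst (PT.snd PT.fst'))))
        (ptMem (PT.snd (PT.snd PT.fst')) (PT.snd (PT.snd PT.snd'))))
  exact PT.and (PT.all (P := fun (x : α) (a : ℕ × ℕ) => decide (a.1 < k x) && decide (a.2 ∈ V x) &&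
      (ν x).all fun e => !decide (e.1 = a.1) || decide (a.2 ∈ e.2.2)) hA
      (PT.and (PT.and (PT.lt (PT.fst PT.snd') (PT.comp hk PT.fst'))
        (ptMem (PT.snd PT.snd') (PT.comp hV PT.fst'))) h1))
    (PT.any (P := fun (x : α) (e : Ent) => !decide ((e.1, e.2.1) ∈ A x)) hν
      (PT.not (ptMem (PT.pair (PT.fst PT.snd') (PT.fst (PT.snd PT.snd'))) (PT.comp hA PT.fst'))))

theorem dead_pt {V : α → List ℕ} {k : α → ℕ} {Lay : α → List ℕ} {test : α → Box → List Box → Bool}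
    {ν : α → Node} {A : α → Box} {As : α → List Box} (hV : PT V) (hk : PT k) (hL : PT Lay)
    (hν : PT ν) (hA : PT A) (hAs : PT As) (ht : PT fun a => test a (A a) (As a)) :
    PT fun a => dead (V a) (k a) (Lay a) (test a) (ν a) (A a) (As a) := by
  have h1 : PT fun a => (ν a).all fun e => decide ((e.1, e.2.1) ∈ A a) :=
    PT.all (P := fun (x : α) (e : Ent) => decide ((e.1, e.2.1) ∈ A x)) hν
      (ptMem (PT.pair (PT.fst PT.snd') (PT.fst (PT.snd PT.snd'))) (PT.comp hA PT.fst'))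
  have h2 : PT fun p : α × ℕ => (V p.1).all fun v => decide ((p.2, v) ∈ A p.1) :=
    PT.all (P := fun (p : α × ℕ) (v : ℕ) => decide ((p.2, v) ∈ A p.1)) (PT.comp hV PT.fst')
      (ptMem (PT.pair (PT.snd PT.fst') PT.snd') (PT.comp hA (PT.fst PT.fst')))
  have h3 : PT fun a => (Lay a).all fun l => decide (l < (ν a).length) ||
      (V a).all fun v => decide ((l, v) ∈ A a) :=
    PT.all (P := fun (a : α) (l : ℕ) => decide (l < (ν a).length) ||
      (V a).all fun v => decide ((l, v) ∈ A a)) hL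
      (PT.or (PT.lt PT.snd' (PT.length (PT.comp hν PT.fst'))) h2)
  have h4 : PT fun a => (As a).all fun A' => inZ (V a) (k a) (ν a) A' :=
    PT.all (P := fun (a : α) (A' : Box) => inZ (V a) (k a) (ν a) A') hAs
      (inZ_pt (PT.comp hV PT.fst') (PT.comp hk PT.fst') (PT.comp hν PT.fst') PT.snd')
  exact PT.and (PT.and (PT.and h1 h3) h4) ht

theorem allok_pt {V : α → List ℕ} {E : α → List (ℕ × ℕ)} {k : α → ℕ} {Lay : α → List ℕ}
    {test : α → Box → List Box → Bool} {P : α → List Rcd} (hV : PT V) (hE : PT E) (hk : PT k)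
    (hL : PT Lay) (hP : PT P) (ht : PT fun p : α × Rcd => test p.1 p.2.2.1 p.2.2.2) :
    PT fun a => (P a).all fun r => ok (V a) (E a) (k a) (Lay a) (test a) (P a) r := by
  have h1 : PT fun p : α × Rcd => p.2.1 := PT.fst PT.snd'
  have hV' : PT fun p : α × Rcd => V p.1 := PT.comp hV PT.fst'
  have hk' : PT fun p : α × Rcd => k p.1 := PT.comp hk PT.fst'
  have hP' : PT fun p : α × Rcd => P p.1 := PT.comp hP PT.fst'
  have hx := PT.fst (PT.snd (hd_pt h1))
  have hZ := PT.snd (PT.snd (hd_pt h1))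
  exact PT.all (P := fun (a : α) (r : Rcd) => ok (V a) (E a) (k a) (Lay a) (test a) (P a) r) hP
    (PT.and (PT.and (ptMem hx hZ) (hand_pt hP' (PT.tail h1) (del_pt hZ hx)))
      (PT.or (PT.or (dead_pt (test := fun p : α × Rcd => test p.1) hV' hk' (PT.comp hL PT.fst') h1
        (PT.fst (PT.snd PT.snd')) (PT.snd (PT.snd PT.snd')) ht) (noncl_pt (PT.comp hE PT.fst') h1))
        (PT.and (PT.lt (PT.length h1) hk') (hand_pt hP' h1 hV'))))

end PTs

end Pool.Agent.Lib.MP_ddf912_lc.Dj
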