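import Pool.Agent.Lib.MP_ddf912_lc.Dj.Inst

namespace Pool.Agent.Lib.MP_ddf912_lc.Dj

open Turing N487b59b3 N68a2faeb Pool.Agent.Lib.helper82

theorem pow_le_two_pow (s r : ℕ) : s ^ r ≤ 2 ^ (r * r + r) * 2 ^ s := by
  have h1 : s ^ r ≤ (s + 1).ascFactorial r :=
    (Nat.pow_le_pow_left (Nat.le_succ s) _).trans (Nat.pow_succ_le_ascFactorial _ _)
  rw [Nat.ascFactorial_eq_factorial_mul_choose] at h1
  have h2 : (s + r).choose r ≤ 2 ^ (s + r) := Nat.choose_le_two_pow _ _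
  have h3 : r.factorial ≤ 2 ^ (r * r) := by
    refine (Nat.factorial_le_pow r).trans ?_
    rw [pow_mul]
    exact Nat.pow_le_pow_left Nat.lt_two_pow_self.le _
  calc s ^ r ≤ 2 ^ (r * r) * 2 ^ (s + r) := h1.trans (Nat.mul_le_mul h3 h2)
    _ = _ := by ring

theorem pow_le_two_pow' (a k : ℕ) : a ^ k ≤ 2 ^ (a * k) := by
  rw [pow_mul]
  exact Nat.pow_le_pow_left Nat.lt_two_pow_self.le _

theorem two_pow_size_le {z : ℕ} (hz : 1 ≤ z) : 2 ^ z.size ≤ 2 * z := by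
  have h1 : 0 < z.size := Nat.size_pos.2 (by omega)
  have h2 := (Nat.lt_size (m := z.size - 1) (n := z)).1 (by omega)
  rw [show z.size = z.size - 1 + 1 by omega, pow_succ]
  omega

theorem polylog {z : ℕ} (hz : 1 ≤ z) (c d k : ℕ) :
    (6 * ((2 * (c * z.size) + 1) ^ d + 1) + 4) ^ k * (z.size + 1) ^ k ≤
      2 ^ (32 * (2 * c + 1) ^ d * k + ((d + 1) * k * ((d + 1) * k) + (d + 1) * k) + 1) * z := by
  set s := z.size with hs
  have h0 : 1 ≤ s := Nat.size_pos.2 (by omega)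
  have h1 : (2 * (c * s) + 1) ^ d ≤ (2 * c + 1) ^ d * s ^ d := by
    rw [← mul_pow]; exact Nat.pow_le_pow_left (by nlinarith) d
  have h2 : 1 ≤ (2 * c + 1) ^ d * s ^ d := Nat.succ_le_of_lt (by positivity)
  have h3 : (6 * ((2 * (c * s) + 1) ^ d + 1) + 4) * (s + 1) ≤
      32 * (2 * c + 1) ^ d * s ^ (d + 1) := by
    calc _ ≤ (16 * ((2 * c + 1) ^ d * s ^ d)) * (2 * s) := Nat.mul_le_mul (by omega) (by omega)
      _ = _ := by ring
  rw [← mul_pow]
  calc _ ≤ (32 * (2 * c + 1) ^ d * s ^ (d + 1)) ^ k := Nat.pow_le_pow_left h3 k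
    _ = (32 * (2 * c + 1) ^ d) ^ k * s ^ ((d + 1) * k) := by rw [mul_pow, ← pow_mul]
    _ ≤ 2 ^ (32 * (2 * c + 1) ^ d * k) * (2 ^ ((d + 1) * k * ((d + 1) * k) + (d + 1) * k) *
          (2 * z)) := Nat.mul_le_mul (pow_le_two_pow' _ _) ((pow_le_two_pow _ _).trans
            (Nat.mul_le_mul_left _ (two_pow_size_le hz)))
    _ = _ := by ring

variable {V : List ℕ} {k z : ℕ}

theorem sz_box (hk : k ≤ z) (hV : sz V ≤ z) (hkV : k * V.length ≤ z) {A : Box}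
    (h : SmallB V k A) : sz A ≤ z * (6 * z + 3) := by
  refine (sz_le_of_forall (3 * z + 1) A ?_).trans (Nat.mul_le_mul (h.1.trans hkV) (by omega))
  rintro ⟨l, v⟩ ha
  obtain ⟨h1, h2⟩ := h.2 _ ha
  have h3 := sz_nat_le_self l
  have h4 := sz_le_of_mem h2
  rw [sz_prod]
  simp only at h1 h4
  omega

theorem sz_node (hk : k ≤ z) (hV : sz V ≤ z) {ν : Node} (h : SmallN V k ν) :
    sz ν ≤ z * (10 * z + 5) := by
  refine (sz_le_of_forall (5 * z + 2) ν ?_).trans (Nat.mul_le_mul (h.1.trans hk) (by omega))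
  rintro ⟨l, v, Z⟩ ha
  obtain ⟨h1, h2, h5⟩ := h.2 _ ha
  have h3 := sz_nat_le_self l
  have h4 := sz_le_of_mem h2
  have h6 := sz_le_of_sublist h5
  rw [sz_prod, sz_prod]
  simp only at h1 h4 h6
  omega

theorem sz_rcd {q : ℕ} (hk : k ≤ z) (hV : sz V ≤ z) (hkV : k * V.length ≤ z) {r : Rcd}
    (h1 : SmallN V k r.1) (h2 : SmallB V k r.2.1) (h3 : r.2.2.length ≤ q)
    (h4 : ∀ A ∈ r.2.2, SmallB V k A) :
    sz r ≤ 2 * (z * (10 * z + 5)) + 1 + (q + 1) * (2 * (z * (6 * z + 3)) + 1) := by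
  obtain ⟨ν, A, As⟩ := r
  have a1 := sz_node hk hV h1
  have a2 := sz_box hk hV hkV h2
  have a3 := (sz_le_of_forall _ As fun A hA => sz_box hk hV hkV (h4 A hA)).trans
    (Nat.mul_le_mul_right _ h3)
  rw [sz_prod, sz_prod, add_mul q]
  simp only at a1 a2 a3
  omega

theorem sz_range (hk : k ≤ z) : sz (List.range k) ≤ z * (2 * z + 1) := by
  refine (sz_le_of_forall z _ fun l hl => ?_).trans (Nat.mul_le_mul_right _ (by simpa using hk))
  have := sz_nat_le_self l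
  have := List.mem_range.1 hl
  omega

end Pool.Agent.Lib.MP_ddf912_lc.Dj
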