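import Pool.Agent.Lib.MP_ddf912_lc.Dj.Count

namespace Pool.Agent.Lib.MP_ddf912_lc.Dj

abbrev Box := List (ℕ × ℕ)
abbrev Ent := ℕ × ℕ × List ℕ
abbrev Node := List Ent
abbrev Rcd := Node × Box × List Box

def adjB (E : List (ℕ × ℕ)) (u v : ℕ) : Bool :=
  !decide (u = v) && (decide ((u, v) ∈ E) || decide ((v, u) ∈ E))

def hd (ν : Node) : Ent := ν.headD (0, 0, [])

def hand (P : List Rcd) (σ : Node) (Z : List ℕ) : Bool :=
  Z.isEmpty || P.any fun r => decide (r.1 = (σ.length, (hd r.1).2.1, Z) :: σ)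

section System
variable (V : List ℕ) (E : List (ℕ × ℕ)) (k : ℕ) (Lay : List ℕ) (test : Box → List Box → Bool)

def Tup (y : ℕ → ℕ) : Prop :=
  (∀ l < k, y l ∈ V) ∧ ∀ l < k, ∀ l' < k, l ≠ l' → adjB E (y l) (y l') = true

def Has (A : Box) : Prop := ∃ y, Tup V E k y ∧ ∀ l < k, (l, y l) ∈ A

def noncl (ν : Node) : Bool :=
  ν.any fun e => ν.any fun e' => !decide (e.1 = e'.1) && !adjB E e.2.1 e'.2.1

def inZ (ν : Node) (A : Box) : Bool :=
  (A.all fun a => decide (a.1 < k) && decide (a.2 ∈ V) &&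
    ν.all fun e => !decide (e.1 = a.1) || decide (a.2 ∈ e.2.2)) &&
  ν.any fun e => !decide ((e.1, e.2.1) ∈ A)

def dead (ν : Node) (A : Box) (As : List Box) : Bool :=
  (ν.all fun e => decide ((e.1, e.2.1) ∈ A)) &&
  (Lay.all fun l => decide (l < ν.length) || V.all fun v => decide ((l, v) ∈ A)) &&
  (As.all fun A' => inZ V k ν A') && test A As

def ok (P : List Rcd) (r : Rcd) : Bool :=
  decide ((hd r.1).2.1 ∈ (hd r.1).2.2) && hand P r.1.tail (del (hd r.1).2.2 (hd r.1).2.1) &&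
  (dead V k Lay test r.1 r.2.1 r.2.2 || noncl E r.1 || (decide (r.1.length < k) && hand P r.1 V))

def Inv (σ : Node) : Prop :=
  (∃ y, Tup V E k y ∧ ∀ e ∈ σ, y e.1 = e.2.1) ∧
  (∀ y, Tup V E k y → (∀ e ∈ σ, y e.1 ∈ e.2.2) → ∀ e ∈ σ, y e.1 = e.2.1) ∧
  (∀ e ∈ σ, e.1 < σ.length) ∧ ∀ l < σ.length, ∃ e ∈ σ, e.1 = l

variable {V E k Lay test}

theorem hand_iff {P : List Rcd} {σ : Node} {Z : List ℕ} :
    hand P σ Z = true ↔ Z = [] ∨ ∃ x, ∃ r ∈ P, r.1 = (σ.length, x, Z) :: σ := by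
  simp only [hand, Bool.or_eq_true, List.isEmpty_iff, List.any_eq_true, decide_eq_true_eq]
  refine or_congr Iff.rfl ⟨fun ⟨r, h1, h2⟩ => ⟨_, r, h1, h2⟩, fun ⟨x, r, h1, h2⟩ => ⟨r, h1, ?_⟩⟩
  rw [h2]; rfl

theorem hand_mono {P P' : List Rcd} (h : ∀ r ∈ P, r ∈ P') {σ : Node} {Z : List ℕ}
    (h1 : hand P σ Z = true) : hand P' σ Z = true := by
  rw [hand_iff] at h1 ⊢
  exact h1.imp id fun ⟨x, r, h2, h3⟩ => ⟨x, r, h r h2, h3⟩

theorem ok_mono {P P' : List Rcd} (h : ∀ r ∈ P, r ∈ P') {r : Rcd}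
    (h1 : ok V E k Lay test P r = true) : ok V E k Lay test P' r = true := by
  simp only [ok, Bool.and_eq_true, Bool.or_eq_true] at h1 ⊢
  exact ⟨⟨h1.1.1, hand_mono h h1.1.2⟩, h1.2.imp id fun h2 => ⟨h2.1, hand_mono h h2.2⟩⟩

theorem inv_step {P : List Rcd} (hP : ∀ r ∈ P, ok V E k Lay test P r = true) {σ : Node}
    (hσ : Inv V E k σ) : ∀ (n : ℕ) (Z : List ℕ), Z.length ≤ n → hand P σ Z = true →
      (∃ y, Tup V E k y ∧ (∀ e ∈ σ, y e.1 = e.2.1) ∧ y σ.length ∈ Z) →
      ∃ r ∈ P, Inv V E k r.1 ∧ r.1.length = σ.length + 1 := by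
  intro n
  induction n with
  | zero =>
    rintro Z hZ - ⟨y, -, -, h⟩
    have := List.length_pos_of_mem h
    omega
  | succ n ih =>
    rintro Z hZ h ⟨y, h1, h2, h3⟩
    obtain ⟨x, r, hr, e⟩ := (hand_iff.1 h).resolve_left (List.ne_nil_of_mem h3)
    have h4 := hP r hr
    simp only [ok, Bool.and_eq_true, e, hd, List.headD_cons, List.tail_cons,
      decide_eq_true_eq] at h4
    obtain ⟨⟨h5, h6⟩, -⟩ := h4
    by_cases h7 : ∃ y, Tup V E k y ∧ (∀ e ∈ σ, y e.1 = e.2.1) ∧ y σ.length ∈ del Z x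
    · exact ih _ (by have := length_del_lt h5; omega) h6 h7
    have h8 : ∀ y, Tup V E k y → (∀ e ∈ σ, y e.1 = e.2.1) → y σ.length ∈ Z → y σ.length = x := by
      intro y a1 a2 a3
      by_contra a4
      exact h7 ⟨y, a1, a2, by simp [del, a3, a4]⟩
    refine ⟨r, hr, ?_, by rw [e]; rfl⟩
    rw [e]
    refine ⟨⟨y, h1, ?_⟩, ?_, ?_, ?_⟩
    · intro e' he'
      rcases List.mem_cons.1 he' with rfl | he'
      · exact h8 y h1 h2 h3
      · exact h2 e' he'
    · intro y' a1 a2 e' he'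
      have a3 := hσ.2.1 y' a1 fun e he => a2 e (List.mem_cons_of_mem _ he)
      rcases List.mem_cons.1 he' with rfl | he'
      · exact h8 y' a1 a3 (a2 _ List.mem_cons_self)
      · exact a3 e' he'
    · intro e' he'
      rcases List.mem_cons.1 he' with rfl | he'
      · simp
      · have := hσ.2.2.1 e' he'
        simp only [List.length_cons]; omega
    · intro l hl
      by_cases a1 : l = σ.length
      · exact ⟨_, List.mem_cons_self, a1.symm⟩
      · obtain ⟨e', a2, a3⟩ := hσ.2.2.2 l (by simp only [List.length_cons] at hl; omega)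
        exact ⟨e', List.mem_cons_of_mem _ a2, a3⟩

theorem sound (hLay : ∀ l < k, l ∈ Lay) (hk : 1 ≤ k)
    (ht : ∀ A As, test A As = true → (∀ A' ∈ As, ∀ a ∈ A', a.1 < k ∧ a.2 ∈ V) →
      Has V E k A → ∃ A' ∈ As, Has V E k A')
    {P : List Rcd} (hP : ∀ r ∈ P, ok V E k Lay test P r = true) (h0 : hand P [] V = true) :
    ¬ ∃ y, Tup V E k y := by
  have step : ∀ σ, Inv V E k σ → σ.length < k → hand P σ V = true →
      ∃ r ∈ P, Inv V E k r.1 ∧ r.1.length = σ.length + 1 := by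
    intro σ h1 h2 h3
    obtain ⟨y, h4, h5⟩ := h1.1
    exact inv_step hP h1 _ V le_rfl h3 ⟨y, h4, h5, h4.1 _ h2⟩
  have key : ∀ m : ℕ, ∀ r ∈ P, Inv V E k r.1 → r.1.length + m = k → False := by
    have aux : ∀ r ∈ P, Inv V E k r.1 → r.1.length ≤ k →
        r.1.length < k ∧ hand P r.1 V = true := by
      intro r hr hI hl
      have h4 := hP r hr
      simp only [ok, Bool.and_eq_true, Bool.or_eq_true, decide_eq_true_eq] at h4
      obtain ⟨⟨y, a1, a2⟩, a3, a4, a5⟩ := hI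
      rcases h4.2 with (h | h) | h
      · exfalso
        simp only [dead, inZ, Bool.and_eq_true, List.all_eq_true, decide_eq_true_eq,
          Bool.or_eq_true, Bool.not_eq_true', decide_eq_false_iff_not, List.any_eq_true] at h
        obtain ⟨⟨⟨b1, b2⟩, b3⟩, b4⟩ := h
        obtain ⟨A', c1, y', c2, c3⟩ := ht _ _ b4 (fun A' hA' a ha => ((b3 A' hA').1 a ha).1)
          ⟨y, a1, fun l hlk => by
            rcases b2 l (hLay l hlk) with h | h
            · obtain ⟨e, he, rfl⟩ := a5 l h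
              rw [a2 e he]; exact b1 e he
            · exact h _ (a1.1 l hlk)⟩
        obtain ⟨e, he, c4⟩ := (b3 A' c1).2
        have c5 : ∀ e ∈ r.1, (e.1, y' e.1) ∈ A' := fun e he => c3 _ ((a4 e he).trans_le hl)
        have c6 := a3 y' c2 (fun e he => (((b3 A' c1).1 _ (c5 e he)).2 e he).resolve_left
          (fun h => h rfl)) e he
        exact c4 (c6 ▸ c5 e he)
      · exfalso
        simp only [noncl, List.any_eq_true, Bool.and_eq_true, Bool.not_eq_true',
          decide_eq_false_iff_not] at h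
        obtain ⟨e, he, e', he', b1, b2⟩ := h
        have := a1.2 _ ((a4 e he).trans_le hl) _ ((a4 e' he').trans_le hl) b1
        rw [a2 e he, a2 e' he', b2] at this
        exact Bool.false_ne_true this
      · exact h
    intro m
    induction m with
    | zero => intro r hr hI hl; have := (aux r hr hI (by omega)).1; omega
    | succ m ih =>
      intro r hr hI hl
      obtain ⟨h1, h2⟩ := aux r hr hI (by omega)
      obtain ⟨r', h3, h4, h5⟩ := step _ hI h1 h2
      exact ih r' h3 h4 (by omega)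
  rintro ⟨y, hy⟩
  obtain ⟨r, h1, h2, h3⟩ := step [] ⟨⟨y, hy, by simp⟩, by simp, by simp, by simp⟩ hk h0
  exact key (k - 1) r h1 h2 (by simp only [List.length_nil] at h3; omega)

end System

end Pool.Agent.Lib.MP_ddf912_lc.Dj
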