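import Pool.Agent.Lib.MP_ddf912_lc.Dj.Sys

namespace Pool.Agent.Lib.MP_ddf912_lc.Dj

open Finset

/-- All nodes with the given contexts. -/
def St : List (List ℕ) → Finset Node
  | [] => {[]}
  | Z :: cs => (Z.toFinset ×ˢ St cs).image fun p => (cs.length, p.1, Z) :: p.2

theorem sum_St (Z : List ℕ) (cs : List (List ℕ)) (f : Node → ℕ) :
    ∑ ν ∈ St (Z :: cs), f ν = ∑ x ∈ Z.toFinset, ∑ σ ∈ St cs, f ((cs.length, x, Z) :: σ) := by
  rw [St, sum_image, sum_product]
  rintro ⟨x, σ⟩ - ⟨x', σ'⟩ - h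
  simp only [List.cons.injEq, Prod.mk.injEq, true_and, and_true] at h
  exact Prod.ext h.1 h.2

theorem mem_St_cons {Z : List ℕ} {cs : List (List ℕ)} {ν : Node} :
    ν ∈ St (Z :: cs) ↔ ∃ x ∈ Z, ∃ σ ∈ St cs, (cs.length, x, Z) :: σ = ν := by
  simp only [St, mem_image, mem_product, List.mem_toFinset, Prod.exists]
  exact ⟨fun ⟨x, σ, h1, h2⟩ => ⟨x, h1.1, σ, h1.2, h2⟩, fun ⟨x, h1, σ, h2, h3⟩ => ⟨x, σ, ⟨h1, h2⟩, h3⟩⟩

theorem St_spec : ∀ (cs : List (List ℕ)) (σ : Node), σ ∈ St cs → σ.length = cs.length ∧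
    (∀ e ∈ σ, e.1 < cs.length ∧ e.2.1 ∈ e.2.2 ∧ e.2.2 ∈ cs) ∧ (∀ l < cs.length, ∃ e ∈ σ, e.1 = l)
  | [], σ, h => by
    obtain rfl : σ = [] := by simpa [St] using h
    simp
  | Z :: cs, ν, h => by
    obtain ⟨x, hx, σ, hσ, rfl⟩ := mem_St_cons.1 h
    obtain ⟨h1, h2, h3⟩ := St_spec cs σ hσ
    refine ⟨by simp [h1], fun e he => ?_, fun l hl => ?_⟩
    · rcases List.mem_cons.1 he with rfl | he
      · exact ⟨by simp, hx, List.mem_cons_self⟩
      · obtain ⟨a1, a2, a3⟩ := h2 e he
        exact ⟨by simp only [List.length_cons]; omega, a2, List.mem_cons_of_mem _ a3⟩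
    · by_cases a1 : l = cs.length
      · exact ⟨_, List.mem_cons_self, a1.symm⟩
      · obtain ⟨e, a2, a3⟩ := h3 l (by simp only [List.length_cons] at hl; omega)
        exact ⟨e, List.mem_cons_of_mem _ a2, a3⟩

def pts (σ : Node) : Finset (ℕ × ℕ) := (σ.map fun e => (e.1, e.2.1)).toFinset

def SS : List (List ℕ) → Finset (ℕ × ℕ)
  | [] => ∅
  | Z :: cs => SS cs ∪ Z.toFinset.image fun v => (cs.length, v)

theorem mem_pts {σ : Node} {a : ℕ × ℕ} : a ∈ pts σ ↔ ∃ e ∈ σ, (e.1, e.2.1) = a := by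
  simp only [pts, List.mem_toFinset, List.mem_map]

theorem pts_cons (e : Ent) (σ : Node) : pts (e :: σ) = insert (e.1, e.2.1) (pts σ) := by
  simp [pts]

theorem SS_spec : ∀ (cs : List (List ℕ)), ∀ a ∈ SS cs, a.1 < cs.length ∧ ∃ Z ∈ cs, a.2 ∈ Z
  | [], a, h => by simp [SS] at h
  | Z :: cs, a, h => by
    rcases mem_union.1 h with h | h
    · obtain ⟨h1, Y, h2, h3⟩ := SS_spec cs a h
      exact ⟨by simp only [List.length_cons]; omega, Y, List.mem_cons_of_mem _ h2, h3⟩
    · obtain ⟨v, hv, rfl⟩ := mem_image.1 h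
      exact ⟨by simp, Z, List.mem_cons_self, List.mem_toFinset.1 hv⟩

theorem pts_spec : ∀ (cs : List (List ℕ)) (σ : Node), σ ∈ St cs → pts σ ⊆ SS cs ∧
    (pts σ).card = cs.length ∧ (∀ a ∈ SS cs, ∀ e ∈ σ, e.1 = a.1 → a.2 ∈ e.2.2) ∧
    ∀ σ' ∈ St cs, pts σ = pts σ' → σ = σ'
  | [], σ, h => by
    obtain rfl : σ = [] := by simpa [St] using h
    simp [pts, St]
  | Z :: cs, ν, h => by
    obtain ⟨x, hx, σ, hσ, rfl⟩ := mem_St_cons.1 h
    obtain ⟨h1, h2, h3, h4⟩ := pts_spec cs σ hσ
    have hn : ∀ σ ∈ St cs, ∀ x, (cs.length, x) ∉ pts σ := fun σ hσ x h =>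
      lt_irrefl _ (SS_spec cs _ ((pts_spec cs σ hσ).1 h)).1
    refine ⟨?_, ?_, ?_, ?_⟩
    · rw [pts_cons, insert_subset_iff]
      exact ⟨mem_union_right _ (mem_image_of_mem _ (List.mem_toFinset.2 hx)),
        h1.trans subset_union_left⟩
    · rw [pts_cons, card_insert_of_notMem (hn σ hσ x), h2, List.length_cons]
    · intro a ha e he hea
      rcases mem_union.1 ha with ha | ha <;> rcases List.mem_cons.1 he with rfl | he
      · have := (SS_spec cs a ha).1
        simp only at hea; omega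
      · exact h3 a ha e he hea
      · obtain ⟨v, hv, rfl⟩ := mem_image.1 ha
        exact List.mem_toFinset.1 hv
      · obtain ⟨v, hv, rfl⟩ := mem_image.1 ha
        have := ((St_spec cs σ hσ).2.1 e he).1
        simp only at hea; omega
    · intro ν' hν' e
      obtain ⟨x', hx', σ', hσ', rfl⟩ := mem_St_cons.1 hν'
      rw [pts_cons, pts_cons] at e
      simp only at e
      have a1 : (cs.length, x) ∈ insert (cs.length, x') (pts σ') := e ▸ mem_insert_self _ _
      obtain rfl : x = x' := by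
        simpa using (mem_insert.1 a1).resolve_right (hn σ' hσ' x)
      have a2 : pts σ = pts σ' := by
        rw [← erase_insert (hn σ hσ x), e, erase_insert (hn σ' hσ' x)]
      rw [h4 σ' hσ' a2]

theorem sum_list_comm {α β : Type} (s : Finset α) (g : β → α → ℕ) : ∀ ch : List β,
    ∑ σ ∈ s, (ch.map fun c => g c σ).sum = (ch.map fun c => ∑ σ ∈ s, g c σ).sum
  | [] => by simp
  | c :: ch => by
    simp only [List.map_cons, List.sum_cons, sum_add_distrib, sum_list_comm s g ch]

section Tree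
variable {V : List ℕ} {E : List (ℕ × ℕ)} {k : ℕ} {Lay : List ℕ} {test : Box → List Box → Bool}

def SmallN (V : List ℕ) (k : ℕ) (ν : Node) : Prop :=
  ν.length ≤ k ∧ ∀ e ∈ ν, e.1 < k ∧ e.2.1 ∈ V ∧ e.2.2.Sublist V

open Classical in
theorem tree (sm : Box → List Box → Prop) (hsm : sm [] []) (C H : ℕ) (hno : ¬ ∃ y, Tup V E k y)
    (hH : V.toFinset.card < 2 ^ H)
    (hC : ∀ cs : List (List ℕ), (∀ Z ∈ cs, Z.Sublist V) → cs.length ≤ k →
      ((St cs).filter fun σ => σ = [] ∨
        ¬ ∃ A As, dead V k Lay test σ A As = true ∧ sm A As).card ≤ C) :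
    ∀ (m : ℕ) (cs : List (List ℕ)), (∀ Z ∈ cs, Z.Sublist V) → cs.length + m = k →
      ∃ cert : Node → List Rcd,
        (∀ σ ∈ St cs, (m ≠ 0 → hand (cert σ) σ V = true) ∧ ∀ r ∈ cert σ,
          ok V E k Lay test (cert σ) r = true ∧ SmallN V k r.1 ∧ sm r.2.1 r.2.2) ∧
        ∑ σ ∈ St cs, (if σ = [] ∨ ¬ ∃ A As, dead V k Lay test σ A As = true ∧ sm A As
          then (cert σ).length else 0) ≤ V.toFinset.card * C * (H + 1) ^ m := by
  intro m
  induction m with
  | zero => exact fun cs _ _ => ⟨fun _ => [], by simp, by simp⟩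
  | succ m ih =>
    intro cs hcs hl
    set al : Node → Prop := fun σ => σ = [] ∨
      ¬ ∃ A As, dead V k Lay test σ A As = true ∧ sm A As with hal
    have ih' : ∀ Z : List ℕ, ∃ cert : Node → List Rcd, Z.Sublist V →
        (∀ σ ∈ St (Z :: cs), (m ≠ 0 → hand (cert σ) σ V = true) ∧ ∀ r ∈ cert σ,
          ok V E k Lay test (cert σ) r = true ∧ SmallN V k r.1 ∧ sm r.2.1 r.2.2) ∧
        ∑ σ ∈ St (Z :: cs), (if al σ then (cert σ).length else 0) ≤
          V.toFinset.card * C * (H + 1) ^ m := by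
      intro Z
      by_cases hZ : Z.Sublist V
      · obtain ⟨cert, h⟩ := ih (Z :: cs) (by
          intro Y hY
          rcases List.mem_cons.1 hY with rfl | hY
          · exact hZ
          · exact hcs Y hY) (by simp only [List.length_cons]; omega)
        exact ⟨cert, fun _ => h⟩
      · exact ⟨fun _ => [], fun h => absurd h hZ⟩
    choose ce hce using ih'
    have hj : ∀ ν : Node, ∃ p : Box × List Box, sm p.1 p.2 ∧
        (¬ al ν → dead V k Lay test ν p.1 p.2 = true) := by
      intro ν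
      by_cases h : al ν
      · exact ⟨([], []), hsm, fun h' => absurd h h'⟩
      · have h' := h
        simp only [hal, not_or, not_not] at h'
        obtain ⟨-, A, As, h1, h2⟩ := h'
        exact ⟨(A, As), h2, fun _ => h1⟩
    choose js hjs1 hjs2 using hj
    let nd : ℕ × List ℕ → Node → Node := fun c σ => (cs.length, c.1, c.2) :: σ
    let sub : ℕ × List ℕ → Node → List Rcd := fun c σ =>
      if al (nd c σ) then ce c.2 (nd c σ) else []
    set K := V.toFinset.card * C * (H + 1) ^ m with hK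
    obtain ⟨ch, g1, g2, g3, g4⟩ := greedy V (fun x Z => ∑ σ ∈ St cs, (sub (x, Z) σ).length) K (by
      intro Z hZ
      refine le_trans (le_of_eq ?_) (hce Z hZ).2
      rw [sum_St]
      refine sum_congr rfl fun x _ => sum_congr rfl fun σ _ => ?_
      simp only [sub, nd]
      split_ifs <;> rfl) _ V (List.Sublist.refl V) rfl
    have g5 := g4.trans (harm_le K H _ hH)
    refine ⟨fun σ => ch.flatMap fun c => (nd c σ, js (nd c σ)) :: sub c σ, ?_, ?_⟩
    · intro σ hσ
      have hσl := (St_spec cs σ hσ).1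
      have hmem : ∀ c ∈ ch, (nd c σ, js (nd c σ)) ∈
          ch.flatMap fun c => (nd c σ, js (nd c σ)) :: sub c σ :=
        fun c hc => List.mem_flatMap.2 ⟨c, hc, List.mem_cons_self⟩
      have hh : ∀ Z : List ℕ, (Z = [] ∨ ∃ x, (x, Z) ∈ ch) →
          hand (ch.flatMap fun c => (nd c σ, js (nd c σ)) :: sub c σ) σ Z = true := by
        intro Z hZ
        rw [hand_iff]
        exact hZ.imp id fun ⟨x, hx⟩ => ⟨x, _, hmem _ hx, by rw [hσl]⟩
      refine ⟨fun _ => hh V g1, fun r hr => ?_⟩
      obtain ⟨c, hc, hr⟩ := List.mem_flatMap.1 hr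
      obtain ⟨c1, c2, c3⟩ := g2 c hc
      have hν : nd c σ ∈ St (c.2 :: cs) := mem_St_cons.2 ⟨c.1, c1, σ, hσ, rfl⟩
      have hsub : ∀ r ∈ sub c σ, r ∈ ch.flatMap fun c => (nd c σ, js (nd c σ)) :: sub c σ :=
        fun r hr => List.mem_flatMap.2 ⟨c, hc, List.mem_cons_of_mem _ hr⟩
      obtain ⟨s1, s2, s3⟩ := St_spec _ _ hν
      simp only [List.length_cons] at s1 s2 s3
      have hV : ∀ Z ∈ c.2 :: cs, Z.Sublist V := by
        intro Y hY
        rcases List.mem_cons.1 hY with rfl | hY
        · exact c2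
        · exact hcs Y hY
      rcases List.mem_cons.1 hr with rfl | hr
      · refine ⟨?_, ⟨by simp only; omega, fun e he => ?_⟩, hjs1 _⟩
        · simp only [ok, Bool.and_eq_true, Bool.or_eq_true, decide_eq_true_eq]
          refine ⟨⟨c1, hh _ c3⟩, ?_⟩
          by_cases h : al (nd c σ)
          swap
          · exact Or.inl (Or.inl (hjs2 _ h))
          by_cases hm : m = 0
          · refine Or.inl (Or.inr ?_)
            by_contra hn
            simp only [noncl, List.any_eq_true, Bool.and_eq_true, Bool.not_eq_true',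
              decide_eq_false_iff_not, not_exists, not_and, Bool.not_eq_false] at hn
            have s4 : ∀ l, ∃ e : Ent, l < k → e ∈ nd c σ ∧ e.1 = l := by
              intro l
              by_cases h : l < k
              · obtain ⟨e, h1, h2⟩ := s3 l (by omega)
                exact ⟨e, fun _ => ⟨h1, h2⟩⟩
              · exact ⟨(0, 0, []), fun h' => absurd h' h⟩
            choose ee hee using s4
            refine hno ⟨fun l => (ee l).2.1, fun l hlk => ?_, fun l hlk l' hlk' hne => ?_⟩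
            · obtain ⟨-, a2, a3⟩ := s2 _ (hee l hlk).1
              exact (hV _ a3).subset a2
            · exact hn _ (hee l hlk).1 _ (hee l' hlk').1 (by
                rw [(hee l hlk).2, (hee l' hlk').2]; exact hne)
          · refine Or.inr ⟨by omega, hand_mono hsub ?_⟩
            simp only [sub, if_pos h]
            exact (((hce c.2 c2).1 _ hν).1 hm)
        · obtain ⟨a1, a2, a3⟩ := s2 e he
          exact ⟨by omega, (hV _ a3).subset a2, hV _ a3⟩
      · by_cases h : al (nd c σ)
        swap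
        · simp [sub, h] at hr
        have e : sub c σ = ce c.2 (nd c σ) := if_pos h
        obtain ⟨a1, a2⟩ := ((hce c.2 c2).1 _ hν).2 r (e ▸ hr)
        exact ⟨ok_mono hsub (e ▸ a1), a2⟩
    · have h1 : ∀ σ ∈ St cs, (if al σ then (ch.flatMap fun c =>
          (nd c σ, js (nd c σ)) :: sub c σ).length else 0) ≤ (if al σ then V.toFinset.card else 0) +
            (ch.map fun c => (sub c σ).length).sum := by
        intro σ _
        split_ifs
        · rw [List.length_flatMap]
          simp only [List.length_cons, List.sum_map_add, List.map_const', List.sum_replicate,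
            smul_eq_mul, mul_one]
          omega
        · exact Nat.zero_le _
      refine (sum_le_sum h1).trans ?_
      rw [sum_add_distrib, sum_list_comm, ← sum_filter, sum_const, smul_eq_mul]
      have h2 := Nat.mul_le_mul_right V.toFinset.card (hC cs hcs (by omega))
      have h3 : V.toFinset.card * C ≤ K :=
        Nat.le_mul_of_pos_right _ (by positivity)
      have h4 : V.toFinset.card * C * (H + 1) ^ (m + 1) = K * H + K := by rw [hK]; ring
      rw [mul_comm C] at h2
      rw [h4]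
      exact (Nat.add_le_add (h2.trans h3) g5).trans (by omega)

end Tree

end Pool.Agent.Lib.MP_ddf912_lc.Dj
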